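import Pool.Agent.H665.UE.Gd

set_option autoImplicit false

/-!
# Long chains in universal classes
-/

namespace Pool.Agent.H665.UE

open FirstOrder FirstOrder.Language Cardinal Ordinal
open Pool.Agent.K7.H47 Pool.Agent.H665.UA
open Pool.Agent.W879.SC (exists_rec)

variable {L : FirstOrder.Language.{0, 0}} {I A B : Type} [L.Structure A] [L.Structure B]
  {U : UC L}

theorem emb_of_TE {w : A → B} (h : TE L (fun a : A => a) w) : ∃ f : A ↪[L] B, ⇑f = w := by
  have h1 : Gn L (fun a : A => a) = Set.univ := Set.eq_univ_of_forall fun a =>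
    mem_Gn (v := fun a : A => a) a
  obtain ⟨e, he⟩ := exists_iso (h.trans (gv_TE w).symm) h1 (Gn_gv w)
  refine ⟨(GS L w).subtype.comp e.toEmbedding, ?_⟩
  funext a
  have h2 := congrFun he a
  show (e a).1 = w a
  rw [show e a = gv L w a from h2]
  rfl

section

variable [LinearOrder I]

/-- the variables before the stage `i` -/
def Va (A : Type) {I : Type} [LinearOrder I] (i : I) : Set (A ⊕ I) := {v | ∀ k, v = .inr k → k < i}

/-- the variables up to the stage `i` -/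
def Vb (A : Type) {I : Type} [LinearOrder I] (i : I) : Set (A ⊕ I) := {v | ∀ k, v = .inr k → k ≤ i}

omit [L.Structure A] in
theorem inl_mem_Va {i : I} (a : A) : (Sum.inl a : A ⊕ I) ∈ Va A i := fun k h => by cases h

omit [L.Structure A] in
theorem inl_mem_Vb {i : I} (a : A) : (Sum.inl a : A ⊕ I) ∈ Vb A i := fun k h => by cases h

theorem inr_mem_Va {A : Type} {i k : I} (h : k < i) : (Sum.inr k : A ⊕ I) ∈ Va A i :=
  fun k' e => by cases e; exact h

theorem inr_mem_Vb {A : Type} {i k : I} (h : k ≤ i) : (Sum.inr k : A ⊕ I) ∈ Vb A i :=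
  fun k' e => by cases e; exact h

theorem Vb_sub_Va {A : Type} {i j : I} (h : i < j) : Vb A i ⊆ Va A j :=
  fun _ hv k e => (hv k e).trans_lt h

theorem Vb_mono {A : Type} : Monotone (Vb A : I → Set (A ⊕ I)) := fun _ _ h _ hv k e =>
  (hv k e).trans h

/-- good types -/
def Gq (U : UC L) (A : Type) [L.Structure A] (i : I) (q : Fa L (A ⊕ I) → Prop) : Prop :=
  ∃ (B : Type) (_ : L.Structure B) (v : A ⊕ I → B), U.K B ∧
    TE L (fun a : A => a) (fun a => v (.inl a)) ∧ Set.InjOn v (Vb A i) ∧ ∀ f, q f ↔ f.H v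

theorem step {θ : Cardinal.{0}} (hθ : U.lam < θ) (hθ0 : ℵ₀ ≤ θ) (hext : ∀ (B : Type)
      [L.Structure B], U.K B → U.lam < #B → #B < θ → ∃ (C : Type) (_ : L.Structure C), U.K C ∧
      ∃ f : B ↪[L] C, ¬ Function.Surjective f) (hAl : U.lam < #A) (hAθ : #A < θ) (i : I)
    (hi : #(Set.Iio i) < θ) {G : Type} [L.Structure G] (hG : U.K G) (e : Va A i → G)
    (he : TE L (fun a : A => a) (fun a => e ⟨.inl a, inl_mem_Va a⟩))
    (hinj : Function.Injective e) (heG : Gn L e = Set.univ) :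
    ∃ q, Gq U A i q ∧ ∃ (B : Type) (_ : L.Structure B) (v : A ⊕ I → B) (f : G ↪[L] B),
      (∀ f, q f ↔ f.H v) ∧ ∀ u : Va A i, v u.1 = f (e u) := by
  classical
  have hVa : #(Va A i) < θ := by
    let r : Va A i → A ⊕ Set.Iio i := fun u => match u with
      | ⟨.inl a, _⟩ => .inl a
      | ⟨.inr k, hk⟩ => .inr ⟨k, hk k rfl⟩
    have hr : Function.Injective r := by
      rintro ⟨a | k, h⟩ ⟨a' | k', h'⟩ hab
      · have h1 : a = a' := Sum.inl_injective hab
        subst h1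
        rfl
      · exact absurd hab (by simp [r])
      · exact absurd hab (by simp [r])
      · have h1 : k = k' := congrArg Subtype.val (Sum.inr_injective hab)
        subst h1
        rfl
    refine (Cardinal.mk_le_of_injective hr).trans_lt ?_
    rw [Cardinal.mk_sum, Cardinal.lift_id, Cardinal.lift_id]
    exact Cardinal.add_lt_of_lt hθ0 hAθ hi
  have hGθ : #G < θ := by
    rw [← Cardinal.mk_univ, ← heG]
    exact (U.mk_Gn e).trans_lt (max_lt hθ hVa)
  have hGl : U.lam < #G := by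
    refine hAl.trans_le (Cardinal.mk_le_of_injective (f := fun a : A => e ⟨.inl a, inl_mem_Va a⟩)
      fun a a' haa => ?_)
    exact Sum.inl_injective (congrArg Subtype.val (hinj haa))
  obtain ⟨B, _, hB, f, hf⟩ := hext G hG hGl hGθ
  obtain ⟨b, hb⟩ : ∃ b, b ∉ Set.range f := by
    by_contra hcon
    push Not at hcon
    exact hf hcon
  let v : A ⊕ I → B := fun u => if hu : u ∈ Va A i then f (e ⟨u, hu⟩) else b
  have hv1 : ∀ u (hu : u ∈ Va A i), v u = f (e ⟨u, hu⟩) := fun u hu => dif_pos hu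
  have hv2 : ∀ u, u ∉ Va A i → v u = b := fun u hu => dif_neg hu
  have hnew : ∀ u ∈ Vb A i, u ∉ Va A i → u = .inr i := by
    intro u hu hu'
    rcases u with a | k
    · exact absurd (inl_mem_Va a) hu'
    · have h1 : k ≤ i := hu k rfl
      rcases h1.lt_or_eq with h2 | h2
      · exact absurd (inr_mem_Va h2) hu'
      · rw [h2]
  refine ⟨fun φ => φ.H v, ⟨B, inferInstance, v, hB, ?_, ?_, fun _ => Iff.rfl⟩, B, inferInstance,
    v, f, fun _ => Iff.rfl, fun u => hv1 u.1 u.2⟩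
  · have h1 : (fun a => v (.inl a)) = f ∘ fun a : A => e ⟨.inl a, inl_mem_Va a⟩ :=
      funext fun a => hv1 _ _
    rw [h1]
    exact he.trans (TE.emb f _)
  · intro u hu u' hu' huu
    by_cases h1 : u ∈ Va A i
    · by_cases h2 : u' ∈ Va A i
      · rw [hv1 u h1, hv1 u' h2] at huu
        exact congrArg Subtype.val (hinj (f.injective huu))
      · rw [hv1 u h1, hv2 u' h2] at huu
        exact absurd ⟨_, huu⟩ hb
    · by_cases h2 : u' ∈ Va A i
      · rw [hv2 u h1, hv1 u' h2] at huu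
        exact absurd ⟨_, huu.symm⟩ hb
      · rw [hnew u hu h1, hnew u' hu' h2]

theorem exists_q {θ : Cardinal.{0}} (hθ : U.lam < θ) (hθ0 : ℵ₀ ≤ θ) (hext : ∀ (B : Type)
      [L.Structure B], U.K B → U.lam < #B → #B < θ → ∃ (C : Type) (_ : L.Structure C), U.K C ∧
      ∃ f : B ↪[L] C, ¬ Function.Surjective f) (hA : U.K A) (hAl : U.lam < #A) (hAθ : #A < θ)
    (i : I) (hi : #(Set.Iio i) < θ) (D : I → Fa L (A ⊕ I) → Prop)
    (h1 : ∀ j, j < i → Gq U A j (D j)) (h2 : ∀ j, j < i → ∀ k, k < j → Ag (Vb A k) (D k) (D j)) :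
    ∃ q, Gq U A i q ∧ ∀ j, j < i → Ag (Vb A j) (D j) q := by
  classical
  by_cases hne : ∃ j, j < i
  · obtain ⟨j0, hj0⟩ := hne
    have : Nonempty {j // j < i} := ⟨⟨j0, hj0⟩⟩
    choose B sB v hB hvA hvI hv using fun j : {j // j < i} => h1 j j.2
    obtain ⟨G, _, e, hK, he, hG⟩ := U.glueD (V := Va A i) (I := {j // j < i})
      (fun j => {u | u.1 ∈ Vb A j.1}) (fun j k hjk u hu =>
        show u.1 ∈ Vb A k.1 from Vb_mono (show j.1 ≤ k.1 from hjk) hu) (by
        rintro ⟨a | k, hu⟩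
        · exact ⟨⟨j0, hj0⟩, inl_mem_Vb a⟩
        · exact ⟨⟨k, hu k rfl⟩, inr_mem_Vb le_rfl⟩) B hB (fun j u => v j u.1) (by
        intro j k hjk
        rcases hjk.lt_or_eq with h | h
        · exact ((h2 k k.2 j h).te (hv j) (hv k)).comp
            fun u : {u : Va A i | u.1 ∈ Vb A j.1} => ⟨u.1.1, u.2⟩
        · subst h
          exact TE.rfl')
    obtain ⟨q, hq, C, _, w, f, hw, hwf⟩ := step hθ hθ0 hext hAl hAθ i hi hK e (by
        have h3 := (he ⟨j0, hj0⟩).comp fun a : A =>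
          (⟨⟨.inl a, inl_mem_Va a⟩, inl_mem_Vb a⟩ : {u : Va A i | u.1 ∈ Vb A j0})
        exact (hvA ⟨j0, hj0⟩).trans h3.symm) (by
        have key : ∀ u : Va A i, ∃ j : {j // j < i}, u.1 ∈ Vb A j.1 := by
          rintro ⟨a | k, hu⟩
          · exact ⟨⟨j0, hj0⟩, inl_mem_Vb a⟩
          · exact ⟨⟨k, hu k rfl⟩, inr_mem_Vb le_rfl⟩
        intro u u' huu
        obtain ⟨j, hj⟩ := key u
        obtain ⟨j', hj'⟩ := key u'
        let k : {j // j < i} := max j j'
        have hk : u.1 ∈ Vb A k.1 := Vb_mono (show j.1 ≤ k.1 from le_max_left j j') hj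
        have hk' : u'.1 ∈ Vb A k.1 := Vb_mono (show j'.1 ≤ k.1 from le_max_right j j') hj'
        have h4 := ((he k).eq_iff (Term.var ⟨u, hk⟩) (Term.var ⟨u', hk'⟩)).1 huu
        exact Subtype.ext (hvI k hk hk' h4)) hG
    refine ⟨q, hq, fun j hj => ?_⟩
    refine Ag.of_te (hv ⟨j, hj⟩) hw ?_
    have h3 := (he ⟨j, hj⟩).comp fun u : Vb A j =>
      (⟨⟨u.1, Vb_sub_Va hj u.2⟩, u.2⟩ : {u : Va A i | u.1 ∈ Vb A j})
    have h4 : (fun u : Vb A j => w u) = f ∘ fun u : Vb A j => e ⟨u.1, Vb_sub_Va hj u.2⟩ :=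
      funext fun u => hwf ⟨u.1, Vb_sub_Va hj u.2⟩
    rw [h4]
    exact h3.symm.trans (TE.emb f _)
  · push Not at hne
    have hno : ∀ k, (Sum.inr k : A ⊕ I) ∉ Va A i := fun k hk =>
      absurd (hk k rfl) (not_lt.2 (hne k))
    obtain ⟨a0⟩ : Nonempty A := Cardinal.mk_ne_zero_iff.1 (fun h => by
      rw [h] at hAl
      exact not_lt_zero hAl)
    let e : Va A i → A := fun u => Sum.elim id (fun _ => a0) u.1
    obtain ⟨q, hq, -⟩ := step hθ hθ0 hext hAl hAθ i hi hA e TE.rfl' (by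
      rintro ⟨a | k, hu⟩ ⟨a' | k', hu'⟩ huu
      · exact Subtype.ext (congrArg Sum.inl huu)
      · exact absurd hu' (hno k')
      · exact absurd hu (hno k)
      · exact absurd hu (hno k)) (by
      refine Set.eq_univ_of_forall fun a => ?_
      exact mem_Gn (v := e) ⟨.inl a, inl_mem_Va a⟩)
    exact ⟨q, hq, fun j hj => absurd hj (not_lt.2 (hne j))⟩

end

/-- **chains**: if the members of size `< θ` have proper extensions then every member can be
embedded into a member of size `≥ θ` -/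
theorem exists_big {θ : Cardinal.{0}} (hext : ∀ (B : Type)
      [L.Structure B], U.K B → U.lam < #B → #B < θ → ∃ (C : Type) (_ : L.Structure C), U.K C ∧
      ∃ f : B ↪[L] C, ¬ Function.Surjective f) (hA : U.K A) (hAl : U.lam < #A) :
    ∃ (B : Type) (_ : L.Structure B), U.K B ∧ θ ≤ #B ∧ Nonempty (A ↪[L] B) := by
  classical
  rcases le_or_gt θ #A with hAθ | hAθ
  · exact ⟨A, inferInstance, hA, hAθ, ⟨Embedding.refl L A⟩⟩
  have hθ : U.lam < θ := hAl.trans hAθ
  have hθ0 : ℵ₀ ≤ θ := U.hl.trans hθ.le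
  obtain ⟨I, hIlo, hIwf, hI, hIio⟩ : ∃ (I : Type) (_ : LinearOrder I) (_ : WellFoundedLT I),
      #I = θ ∧ ∀ j : I, #(Set.Iio j) < θ :=
    ⟨θ.ord.ToType, inferInstance, inferInstance, Cardinal.mk_ord_toType _,
      fun j => Cardinal.mk_Iio_toType_ord_lt j⟩
  have : Inhabited (Fa L (A ⊕ I) → Prop) := ⟨fun _ => True⟩
  obtain ⟨D, hD⟩ := exists_rec (I := I) (fun i D q => (∀ j, j < i → Gq U A j (D j)) →
      (∀ j, j < i → ∀ k, k < j → Ag (Vb A k) (D k) (D j)) →
      Gq U A i q ∧ ∀ j, j < i → Ag (Vb A j) (D j) q) (by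
    intro i D D' q hDD hq h1 h2
    obtain ⟨h3, h4⟩ := hq (fun j hj => by rw [hDD j hj]; exact h1 j hj) (fun j hj k hk => by
      rw [hDD j hj, hDD k (hk.trans hj)]
      exact h2 j hj k hk)
    exact ⟨h3, fun j hj => by rw [← hDD j hj]; exact h4 j hj⟩) (by
    intro i D
    by_cases h1 : ∀ j, j < i → Gq U A j (D j)
    · by_cases h2 : ∀ j, j < i → ∀ k, k < j → Ag (Vb A k) (D k) (D j)
      · obtain ⟨q, hq⟩ := exists_q hθ hθ0 hext hA hAl hAθ i (hIio i) D h1 h2
        exact ⟨q, fun _ _ => hq⟩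
      · exact ⟨default, fun _ h3 => absurd h3 h2⟩
    · exact ⟨default, fun h3 _ => absurd h3 h1⟩)
  have hall : ∀ i, Gq U A i (D i) ∧ (∀ j, j < i → Ag (Vb A j) (D j) (D i)) := by
    intro i
    induction i using WellFoundedLT.induction with
    | ind i ih => exact hD i (fun j hj => (ih j hj).1) fun j hj k hk => (ih j hj).2 k hk
  choose B sB v hB hvA hvI hv using fun i => (hall i).1
  have hne : Nonempty I := Cardinal.mk_ne_zero_iff.1 (by
    rw [hI]
    exact (Cardinal.aleph0_pos.trans_le hθ0).ne')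
  let i0 : I := hne.some
  obtain ⟨G, _, e, hK, he, hG⟩ := U.glueD (V := A ⊕ I) (I := I) (Vb A) Vb_mono (by
      rintro (a | k)
      · exact ⟨i0, inl_mem_Vb a⟩
      · exact ⟨k, inr_mem_Vb le_rfl⟩) B hB v (by
      intro j k hjk
      rcases hjk.lt_or_eq with h | rfl
      · exact ((hall k).2 j h).te (hv j) (hv k)
      · exact TE.rfl')
  refine ⟨G, inferInstance, hK, ?_, ?_⟩
  · rw [← hI]
    refine Cardinal.mk_le_of_injective (f := fun i => e (.inr i)) fun i j hij => ?_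
    let k := max i j
    have hk : (Sum.inr i : A ⊕ I) ∈ Vb A k := inr_mem_Vb (le_max_left i j)
    have hk' : (Sum.inr j : A ⊕ I) ∈ Vb A k := inr_mem_Vb (le_max_right i j)
    have h4 := ((he k).eq_iff (Term.var ⟨_, hk⟩) (Term.var ⟨_, hk'⟩)).1 hij
    exact Sum.inr_injective (hvI k hk hk' h4)
  · have h3 := (he i0).comp fun a : A => (⟨.inl a, inl_mem_Vb a⟩ : Vb A i0)
    obtain ⟨f, -⟩ := emb_of_TE ((hvA i0).trans h3.symm)
    exact ⟨f⟩

end Pool.Agent.H665.UE
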