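import Pool.Agent.H665.UE.Ds

set_option autoImplicit false

/-!
# Downward transfer: members that can be embedded into large members
-/

namespace Pool.Agent.H665.UE

open FirstOrder FirstOrder.Language Cardinal Ordinal
open Pool.Agent.K7.H47 Pool.Agent.H665.UA

variable {L : FirstOrder.Language.{0, 0}} {V W X Y T P S I D : Type} {A B C : Type}
  [L.Structure A] [L.Structure B] [L.Structure C] {U : UC L} {Ψ : Tp L}

/-- blocks of an indiscernible family can be exchanged -/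
theorem block_te {x : X → B} (hx : Sy Ψ x) {Q : Set X} {m k : ℕ} {p : Fin m → X}
    (hp : ∀ i, p i ∈ Q) (t : Unit → L.Term (Fin m ⊕ Fin k)) {c : V → B}
    (hc : ∀ v, c v ∈ Gn L fun r : Q => x r) {b b' : D × Fin k → X} (hb : Function.Injective b)
    (hb' : Function.Injective b') (hbQ : ∀ z, b z ∉ Q) (hbQ' : ∀ z, b' z ∉ Q) :
    TE L (Sum.elim c fun d => Gt x p t (fun j => b (d, j)) ())
      (Sum.elim c fun d => Gt x p t (fun j => b' (d, j)) ()) := by
  obtain ⟨u, rfl⟩ := exists_tm hc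
  have h1 : TE L (x ∘ Sum.elim (fun r : Q => r.1) b) (x ∘ Sum.elim (fun r : Q => r.1) b') := by
    refine hx.pat hx _ _ ?_
    rintro (i | i) (j | j)
    · exact Iff.rfl
    · exact iff_of_false (fun h => hbQ j ((show i.1 = b j from h) ▸ i.2))
        fun h => hbQ' j ((show i.1 = b' j from h) ▸ i.2)
    · exact iff_of_false (fun h => hbQ i ((show b i = j.1 from h) ▸ j.2))
        fun h => hbQ' i ((show b' i = j.1 from h) ▸ j.2)
    · exact hb.eq_iff.trans hb'.eq_iff.symm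
  have h2 := h1.tm (W := V ⊕ D) (Sum.elim (fun v => (u v).subst fun r => Term.var (.inl r))
    fun d => (t ()).subst (Sum.elim (fun i => Term.var (.inl ⟨p i, hp i⟩))
      fun j => Term.var (.inr (d, j))))
  have e : ∀ b : D × Fin k → X, (fun w => ((Sum.elim (fun v => (u v).subst fun r =>
      Term.var (.inl r)) fun d => (t ()).subst (Sum.elim (fun i => Term.var (.inl ⟨p i, hp i⟩))
      fun j => Term.var (.inr (d, j))) : V ⊕ D → L.Term (Q ⊕ (D × Fin k))) w).realize
        (x ∘ Sum.elim (fun r : Q => r.1) b)) =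
      Sum.elim (fun v => (u v).realize fun r : Q => x r)
        fun d => Gt x p t (fun j => b (d, j)) () := by
    intro b
    funext w
    rcases w with v | d
    · simp only [Sum.elim_inl, Term.realize_subst, Term.realize_var]
      rfl
    · simp only [Sum.elim_inr, Term.realize_subst]
      show _ = (t ()).realize _
      congr 1
      funext z
      rcases z with z | z <;> rfl
  rw [e, e] at h2
  exact h2

/-- **No Vaughtian pairs below `mu`** inside large members -/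
theorem nv_down (hΨ : U.Gd Ψ) (hX : #X = U.mu) (hNV : NV U Ψ X) (hB : U.K B) {x : X → B}
    (hx : Sy Ψ x) {J : Y → B} (hJ : Sy Ψ J) (hYl : U.lam < #Y) (hYm : #Y < U.mu)
    (hJx : ∀ y, J y ∈ Gn L x) {a : Unit → B} (hax : a () ∈ Gn L x) (ha : a () ∉ Gn L J) :
    ∃ z : Unit → B, z () ∈ Gn L (Sum.elim J a) ∧ Sy Ψ (Sum.elim J z) := by
  classical
  have hl0 := U.hl
  have hm0 : ℵ₀ ≤ U.mu := U.hl.trans U.hm.le
  have hXinf : Infinite X := Cardinal.infinite_iff.2 (hX ▸ hm0)
  have hYinf : Infinite Y := Cardinal.infinite_iff.2 (hl0.trans hYl.le)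
  obtain ⟨x0⟩ : Nonempty X := inferInstance
  obtain ⟨y0⟩ : Nonempty Y := inferInstance
  obtain ⟨Y0, hY0⟩ := Cardinal.le_mk_iff_exists_set.1 (Order.succ_le_of_lt hYl)
  obtain ⟨S, m, k, p, t, H, hS, hH, hpH, hrep⟩ := exists_uniform U (a := fun y : Y0 => J y) hY0
    fun y => hJx y
  have hSinf : Infinite S := Cardinal.infinite_iff.2 (hS ▸ hl0.trans (Order.le_succ _))
  choose R hRf hR using fun y => exists_fin (S := Unit) (fun _ => J y) fun _ => hJx y
  obtain ⟨Ra, hRaf, hRa⟩ := exists_fin (S := Unit) a fun _ => hax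
  let Q : Set X := (⋃ y, R y) ∪ (Ra ∪ Set.range p)
  have hQ : #Q < U.mu := by
    refine (Cardinal.mk_union_le _ _).trans_lt (Cardinal.add_lt_of_lt hm0 ?_
      ((hRaf.union (Set.finite_range p)).lt_aleph0.trans_le hm0))
    refine lt_of_le_of_lt ?_ hYm
    refine (Cardinal.mk_iUnion_le_sum_mk).trans ?_
    calc Cardinal.sum (fun y => #(R y)) ≤ Cardinal.sum (fun _ : Y => ℵ₀) :=
          Cardinal.sum_le_sum _ _ fun y => (hRf y).lt_aleph0.le
      _ = #Y * ℵ₀ := Cardinal.sum_const' _ _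
      _ = #Y := Cardinal.mul_eq_left (hl0.trans hYl.le) (hl0.trans hYl.le)
        Cardinal.aleph0_ne_zero
  have hQc : #(Qᶜ : Set X) = U.mu := by
    rw [Cardinal.mk_compl_of_infinite _ (hX ▸ hQ), hX]
  obtain ⟨⟨G⟩⟩ : Nonempty (Nonempty ((X × Fin k) ↪ (Qᶜ : Set X))) := by
    refine ⟨(Cardinal.le_def _ _).1 ?_⟩
    rw [hQc, Cardinal.mk_prod, Cardinal.lift_id, Cardinal.lift_id, hX]
    exact (mul_le_mul' le_rfl ((Cardinal.lt_aleph0_of_finite _).le.trans hm0)).trans
      (Cardinal.mul_eq_self hm0).le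
  let G' : X × Fin k → X := fun z => (G z).1
  have hG' : Function.Injective G' := Subtype.val_injective.comp G.injective
  have hGQ : ∀ z, G' z ∉ Q := fun z => (G z).2
  let J' : Y ⊕ X → B := Sum.elim J fun ξ => Gt x p t (fun j => G' (ξ, j)) ()
  have hRQ : ∀ y, R y ⊆ Q := fun y r hr => Or.inl (Set.mem_iUnion.2 ⟨y, hr⟩)
  have hRaQ : Ra ⊆ Q := fun r hr => Or.inr (Or.inl hr)
  have hpQ : ∀ i, p i ∈ Q := fun i => Or.inr (Or.inr ⟨i, rfl⟩)
  have hsubGn : ∀ {R1 R2 : Set X}, R1 ⊆ R2 → (Gn L fun r : R1 => x r) ⊆ Gn L fun r : R2 => x r := by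
    intro R1 R2 h
    exact Gn_sub (w := fun r : R1 => x r) fun r =>
      mem_Gn (v := fun r : R2 => x r) (⟨r.1, h r.2⟩ : R2)
  -- replacement of new members by old ones
  have htr : ∀ (n : ℕ) (g : Fin n ↪ Y ⊕ X), ∃ g' : Fin n ↪ Y,
      TE L (Sum.elim (J' ∘ g) a) (Sum.elim (J ∘ g') a) := by
    intro n g
    let yv : Fin n → Y := fun i => Sum.elim id (fun _ => y0) (g i)
    let ξv : Fin n → X := fun i => Sum.elim (fun _ => x0) id (g i)
    let Dg : Type := {i : Fin n // (g i).isRight}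
    let Q1 : Set X := (⋃ i : Fin n, R (yv i)) ∪ (Ra ∪ Set.range p)
    have hQ1f : Q1.Finite := (Set.finite_iUnion fun i => hRf _).union
      (hRaf.union (Set.finite_range p))
    have hQ1 : Q1 ⊆ Q := by
      rintro r (hr | hr)
      · obtain ⟨i, hi⟩ := Set.mem_iUnion.1 hr
        exact hRQ _ hi
      · exact Or.inr hr
    let Bad : Set S := {s | (∃ j, H (s, j) ∈ Q1) ∨ (Sum.inl s.1.1 : Y ⊕ X) ∈ Set.range g}
    have hBad : Bad.Finite := by
      refine Set.Finite.union ?_ ?_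
      · have h1 : {s : S | ∃ j, H (s, j) ∈ Q1} ⊆ Prod.fst '' (H ⁻¹' Q1) := by
          rintro s ⟨j, hj⟩
          exact ⟨(s, j), hj, rfl⟩
        exact ((hQ1f.preimage hH.injOn).image _).subset h1
      · refine (Set.finite_range g).preimage ?_
        rintro s _ s' _ hss
        exact Subtype.ext (Subtype.ext (Sum.inl.inj hss))
    obtain ⟨h, hh⟩ := exists_avoid hBad.infinite_compl n
    let c : {i : Fin n // ¬ (g i).isRight} ⊕ Unit → B := Sum.elim (fun i => J (yv i.1)) a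
    have hc : ∀ v, c v ∈ Gn L fun r : Q1 => x r := by
      rintro (i | u)
      · exact hsubGn (fun r hr => Or.inl (Set.mem_iUnion.2 ⟨i.1, hr⟩)) (hR (yv i.1) ())
      · exact hsubGn (fun r hr => Or.inr (Or.inl hr)) (hRa ())
    have h1 := block_te (D := Dg) hx (Q := Q1) (p := p) (fun i => Or.inr (Or.inr ⟨i, rfl⟩)) t hc
      (b := fun z => G' (ξv z.1.1, z.2)) (b' := fun z => H (h z.1.1, z.2)) (by
        rintro ⟨i, j⟩ ⟨i', j'⟩ hij
        have h2 := Prod.mk.inj (hG' hij)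
        have h3 : g i.1 = g i'.1 := by
          obtain ⟨ξ, hξ⟩ := Sum.isRight_iff.1 i.2
          obtain ⟨ξ', hξ'⟩ := Sum.isRight_iff.1 i'.2
          have h4 : ξv i.1 = ξ := by simp only [ξv, hξ]; rfl
          have h5 : ξv i'.1 = ξ' := by simp only [ξv, hξ']; rfl
          rw [hξ, hξ', ← h4, ← h5, h2.1]
        have h4 : i = i' := Subtype.ext (g.injective h3)
        rw [h4, show j = j' from h2.2]) (by
        rintro ⟨i, j⟩ ⟨i', j'⟩ hij
        have h2 := Prod.mk.inj (hH hij)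
        have h4 : i = i' := Subtype.ext (h.injective h2.1)
        rw [h4, show j = j' from h2.2]) (fun z hz => hGQ _ (hQ1 hz))
      (fun z hz => hh z.1.1 (Or.inl ⟨z.2, hz⟩))
    let g' : Fin n → Y := fun i => if (g i).isRight then (h i).1.1 else yv i
    have hg'1 : ∀ i, (g i).isRight → g' i = (h i).1.1 := fun i hi => if_pos hi
    have hg'2 : ∀ i, ¬ (g i).isRight → g' i = yv i := fun i hi => if_neg hi
    have hgyv : ∀ i, ¬ (g i).isRight → g i = .inl (yv i) := by
      intro i hi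
      obtain ⟨y, hy⟩ := Sum.isLeft_iff.1 (by simpa using hi)
      have h4 : yv i = y := by simp only [yv, hy]; rfl
      rw [hy, h4]
    have hg'inj : Function.Injective g' := by
      intro i i' hii
      by_cases hi : (g i).isRight
      · by_cases hi' : (g i').isRight
        · rw [hg'1 i hi, hg'1 i' hi'] at hii
          exact h.injective (Subtype.ext (Subtype.ext hii))
        · rw [hg'1 i hi, hg'2 i' hi'] at hii
          refine absurd (Or.inr ⟨i', ?_⟩) (hh i)
          rw [hgyv i' hi', hii]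
      · by_cases hi' : (g i').isRight
        · rw [hg'2 i hi, hg'1 i' hi'] at hii
          refine absurd (Or.inr ⟨i, ?_⟩) (hh i')
          rw [hgyv i hi, hii]
        · rw [hg'2 i hi, hg'2 i' hi'] at hii
          exact g.injective (by rw [hgyv i hi, hgyv i' hi', hii])
    refine ⟨⟨g', hg'inj⟩, ?_⟩
    let r : Fin n ⊕ Unit → ({i : Fin n // ¬ (g i).isRight} ⊕ Unit) ⊕ Dg := fun w => match w with
      | .inl i => if hi : (g i).isRight then .inr ⟨i, hi⟩ else .inl (.inl ⟨i, hi⟩)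
      | .inr u => .inl (.inr u)
    have h2 := h1.comp r
    have e1 : Sum.elim c (fun d : Dg => Gt x p t (fun j => (fun z : Dg × Fin k =>
        G' (ξv z.1.1, z.2)) (d, j)) ()) ∘ r = Sum.elim (J' ∘ g) a := by
      funext w
      rcases w with i | u
      · by_cases hi : (g i).isRight
        · have h3 : r (.inl i) = .inr ⟨i, hi⟩ := dif_pos hi
          obtain ⟨ξ, hξ⟩ := Sum.isRight_iff.1 hi
          have h4 : ξv i = ξ := by simp only [ξv, hξ]; rfl
          rw [Function.comp_apply, h3]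
          show Gt x p t (fun j => G' (ξv i, j)) () = J' (g i)
          rw [hξ, h4]
          rfl
        · have h3 : r (.inl i) = .inl (.inl ⟨i, hi⟩) := dif_neg hi
          rw [Function.comp_apply, h3]
          show J (yv i) = J' (g i)
          rw [hgyv i hi]
          rfl
      · rfl
    have e2 : Sum.elim c (fun d : Dg => Gt x p t (fun j => (fun z : Dg × Fin k =>
        H (h z.1.1, z.2)) (d, j)) ()) ∘ r = Sum.elim (J ∘ g') a := by
      funext w
      rcases w with i | u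
      · by_cases hi : (g i).isRight
        · have h3 : r (.inl i) = .inr ⟨i, hi⟩ := dif_pos hi
          rw [Function.comp_apply, h3]
          show Gt x p t (fun j => H (h i, j)) () = J (g' i)
          rw [hg'1 i hi]
          exact (hrep (h i)).symm
        · have h3 : r (.inl i) = .inl (.inl ⟨i, hi⟩) := dif_neg hi
          rw [Function.comp_apply, h3]
          show J (yv i) = J (g' i)
          rw [hg'2 i hi]
      · rfl
    rw [e1, e2] at h2
    exact h2
  have hJ' : Sy Ψ J' := by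
    refine Sy.loc fun n g => ?_
    obtain ⟨g', hg'⟩ := htr n g
    exact (hJ.comp g').congr (hg'.comp Sum.inl).symm
  have ha' : a () ∉ Gn L J' := by
    intro hcon
    obtain ⟨n, g, τ, hτ⟩ := Gn_fin hcon
    obtain ⟨g', hg'⟩ := htr n g
    have h1 := (hg'.eq_iff (τ.subst fun i => Term.var (.inl i)) (Term.var (.inr ()))).1 (by
      rw [Term.realize_subst]
      exact hτ)
    rw [Term.realize_subst] at h1
    exact ha (Gn_comp g' ⟨τ, h1⟩)
  have hYX : U.mu ≤ #(Y ⊕ X) := by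
    rw [Cardinal.mk_sum, Cardinal.lift_id, Cardinal.lift_id, hX]
    exact le_add_self
  obtain ⟨z, hz, hzS⟩ := nv_up hΨ hX hNV hYX B J' a hB hJ' ha'
  obtain ⟨s, hs, hspt⟩ := exists_spt_up hΨ hB hJ' hYX a
  -- permutation of the new members
  have hperm : ∀ ρ : X ↪ X, TE L (Sum.elim J' a) (Sum.elim (J' ∘ Sum.map id ρ) a) := by
    intro ρ
    have h1 := block_te (D := X) hx (Q := Q) (p := p) hpQ t (c := Sum.elim J a) (by
      rintro (y | u)
      · exact hsubGn (hRQ y) (hR y ())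
      · exact hsubGn hRaQ (hRa ())) (b := G') (b' := fun z => G' (ρ z.1, z.2)) hG' (by
        rintro ⟨i, j⟩ ⟨i', j'⟩ hij
        have h2 := Prod.mk.inj (hG' hij)
        have h4 : i = i' := ρ.injective h2.1
        rw [h4, show j = j' from h2.2]) hGQ (fun z => hGQ _)
    have h2 := h1.comp (fun w : (Y ⊕ X) ⊕ Unit => match w with
      | .inl (.inl y) => .inl (.inl y)
      | .inl (.inr ξ) => .inr ξ
      | .inr u => .inl (.inr u))
    have e : ∀ b : X × Fin k → X, Sum.elim (Sum.elim J a) (fun d => Gt x p t (fun j => b (d, j)) ())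
        ∘ (fun w : (Y ⊕ X) ⊕ Unit => (match w with
          | .inl (.inl y) => .inl (.inl y)
          | .inl (.inr ξ) => .inr ξ
          | .inr u => .inl (.inr u) : (Y ⊕ Unit) ⊕ X)) =
        Sum.elim (Sum.elim J fun d => Gt x p t (fun j => b (d, j)) ()) a := by
      intro b
      funext w
      rcases w with (y | ξ) | u <;> rfl
    have e2 : (Sum.elim J fun d => Gt x p t (fun j => (fun z : X × Fin k =>
        G' (ρ z.1, z.2)) (d, j)) ()) = J' ∘ Sum.map id ρ := by
      funext w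
      rcases w with y | ξ <;> rfl
    refine (TE.of_eq (e G').symm).trans (h2.trans (TE.of_eq ?_))
    exact (e (fun z => G' (ρ z.1, z.2))).trans (by rw [e2])
  let sI : Set Y := {y | (Sum.inl y : Y ⊕ X) ∈ s}
  have hsI : sI.Finite := hs.preimage Sum.inl_injective.injOn
  have hspt' : Spt (L := L) J' a (Sum.inl '' sI) := by
    intro n g φ hgφ
    have hsX : ({ξ | (Sum.inr ξ : Y ⊕ X) ∈ s} : Set X).Finite :=
      hs.preimage Sum.inr_injective.injOn
    obtain ⟨⟨ρ0⟩⟩ : Nonempty (Nonempty (X ↪ ({ξ | (Sum.inr ξ : Y ⊕ X) ∈ s}ᶜ : Set X))) := by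
      refine ⟨(Cardinal.le_def _ _).1 ?_⟩
      rw [Cardinal.mk_compl_of_infinite _ (hsX.lt_aleph0.trans_le (hX ▸ hm0))]
    let ρ : X ↪ X := ρ0.trans (Function.Embedding.subtype _)
    have hρ : ∀ ξ, (Sum.inr (ρ ξ) : Y ⊕ X) ∉ s := fun ξ => (ρ0 ξ).2
    have hmi : Function.Injective (Sum.map (id : Y → Y) ρ) :=
      Function.Injective.sumMap Function.injective_id ρ.injective
    have key : ∀ w : Y ⊕ X, Sum.map id ρ w ∈ s → w ∈ Sum.inl '' sI := by
      rintro (y | ξ) hw
      · exact ⟨y, hw, rfl⟩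
      · exact absurd hw (hρ ξ)
    have h1 := hspt n (g.trans ⟨_, hmi⟩) (φ.trans ⟨_, hmi⟩) fun i hi => by
      have h2 : g i = φ i := hgφ i (hi.imp (key _) (key _))
      show Sum.map id ρ (g i) = Sum.map id ρ (φ i)
      rw [h2]
    have h2 : ∀ g : Fin n ↪ Y ⊕ X, TE L (Sum.elim (J' ∘ g) a)
        (Sum.elim (J' ∘ (g.trans ⟨_, hmi⟩ : Fin n ↪ Y ⊕ X)) a) := fun g =>
      (hperm ρ).left_comp g
    exact ((h2 g).trans h1).trans (h2 φ).symm
  obtain ⟨n, w, τ, hτ⟩ := Gn_fin2 hz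
  let Wx : Set X := {ξ | (Sum.inr ξ : Y ⊕ X) ∈ Set.range w}
  have hWx : Wx.Finite := (Set.finite_range w).preimage Sum.inr_injective.injOn
  let N0 : Set Y := sI ∪ {y | (Sum.inl y : Y ⊕ X) ∈ Set.range w}
  have hN0 : N0.Finite := hsI.union ((Set.finite_range w).preimage Sum.inl_injective.injOn)
  have := hWx.to_subtype
  obtain ⟨q, ⟨e⟩⟩ := Finite.exists_equiv_fin Wx
  obtain ⟨h, hh⟩ := exists_avoid hN0.infinite_compl q
  let θ : X → Y := fun ξ => if hξ : ξ ∈ Wx then h (e ⟨ξ, hξ⟩) else y0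
  have hθ1 : ∀ ξ (hξ : ξ ∈ Wx), θ ξ = h (e ⟨ξ, hξ⟩) := fun ξ hξ => dif_pos hξ
  have hθN : ∀ ξ ∈ Wx, θ ξ ∉ N0 := fun ξ hξ => by
    rw [hθ1 ξ hξ]
    exact hh _
  have hθi : ∀ ξ ∈ Wx, ∀ ξ' ∈ Wx, θ ξ = θ ξ' → ξ = ξ' := fun ξ hξ ξ' hξ' hcon => by
    rw [hθ1 ξ hξ, hθ1 ξ' hξ'] at hcon
    exact congrArg Subtype.val (e.injective (h.injective hcon))
  let φ : Y → Y ⊕ X := fun y => if hy : ∃ ξ, ξ ∈ Wx ∧ θ ξ = y then .inr (Classical.choose hy)
    else .inl y
  have hφ1 : ∀ ξ ∈ Wx, φ (θ ξ) = .inr ξ := by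
    intro ξ hξ
    have hy : ∃ ξ', ξ' ∈ Wx ∧ θ ξ' = θ ξ := ⟨ξ, hξ, rfl⟩
    have h1 : φ (θ ξ) = .inr (Classical.choose hy) := dif_pos hy
    have h2 := Classical.choose_spec hy
    rw [h1, hθi _ h2.1 _ hξ h2.2]
  have hφ2 : ∀ y, (¬ ∃ ξ, ξ ∈ Wx ∧ θ ξ = y) → φ y = .inl y := fun y hy => dif_neg hy
  have hφ3 : ∀ y ∈ N0, φ y = .inl y := by
    intro y hy
    refine hφ2 y ?_
    rintro ⟨ξ, hξ, rfl⟩
    exact hθN ξ hξ hy
  have hφi : Function.Injective φ := by
    intro y y' hyy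
    by_cases hy : ∃ ξ, ξ ∈ Wx ∧ θ ξ = y
    · obtain ⟨ξ, hξ, rfl⟩ := hy
      rw [hφ1 ξ hξ] at hyy
      by_cases hy' : ∃ ξ, ξ ∈ Wx ∧ θ ξ = y'
      · obtain ⟨ξ', hξ', rfl⟩ := hy'
        rw [hφ1 ξ' hξ'] at hyy
        rw [Sum.inr.inj hyy]
      · rw [hφ2 y' hy'] at hyy
        cases hyy
    · rw [hφ2 y hy] at hyy
      by_cases hy' : ∃ ξ, ξ ∈ Wx ∧ θ ξ = y'
      · obtain ⟨ξ', hξ', rfl⟩ := hy'
        rw [hφ1 ξ' hξ'] at hyy
        cases hyy
      · rw [hφ2 y' hy'] at hyy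
        exact Sum.inl.inj hyy
  let w' : Fin n → Y := fun i => Sum.elim id θ (w i)
  have hw' : ∀ i, φ (w' i) = w i := by
    intro i
    rcases hwi : w i with y | ξ
    · have h1 : w' i = y := by simp only [w', hwi]; rfl
      rw [h1]
      exact hφ3 y (Or.inr ⟨i, hwi⟩)
    · have h1 : w' i = θ ξ := by simp only [w', hwi]; rfl
      rw [h1]
      exact hφ1 ξ ⟨i, hwi⟩
  have hTE : TE L (Sum.elim J a) (Sum.elim (J' ∘ φ) a) := by
    refine TE.sum_loc fun n g => ?_
    have h1 := hspt' n (g.trans ⟨Sum.inl, Sum.inl_injective⟩) (g.trans ⟨φ, hφi⟩) (by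
      rintro i (⟨y, hy, hyi⟩ | ⟨y, hy, hyi⟩)
      · have h2 : y = g i := Sum.inl.inj hyi
        show Sum.inl (g i) = φ (g i)
        rw [hφ3 (g i) (Or.inl (h2 ▸ hy))]
      · show Sum.inl (g i) = φ (g i)
        by_cases hy' : ∃ ξ, ξ ∈ Wx ∧ θ ξ = g i
        · obtain ⟨ξ, hξ, hξ'⟩ := hy'
          have h3 : φ (g i) = .inr ξ := by rw [← hξ', hφ1 ξ hξ]
          have h4 : Sum.inl y = φ (g i) := hyi
          rw [h3] at h4
          cases h4
        · rw [hφ2 _ hy'])
    exact h1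
  refine ⟨fun _ => τ.realize (Sum.elim (J ∘ w') a), ?_, ?_⟩
  · refine Gn_sub (w := Sum.elim (J ∘ w') a) ?_ ⟨τ, rfl⟩
    rintro (i | u)
    · exact mem_Gn (v := Sum.elim J a) (.inl (w' i))
    · exact mem_Gn (v := Sum.elim J a) (.inr u)
  · have h1 := hTE.tm (W := Y ⊕ Unit) (Sum.elim (fun y => Term.var (.inl y))
      fun _ => τ.subst (Sum.elim (fun i => Term.var (.inl (w' i))) fun u => Term.var (.inr u)))
    have e1 : ∀ K : Y → B, (fun v => ((Sum.elim (fun y => Term.var (.inl y))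
        fun _ => τ.subst (Sum.elim (fun i => Term.var (.inl (w' i)))
          fun u => Term.var (.inr u)) : Y ⊕ Unit → L.Term (Y ⊕ Unit)) v).realize
          (Sum.elim K a)) = Sum.elim K fun _ => τ.realize (Sum.elim (K ∘ w') a) := by
      intro K
      funext v
      rcases v with v | v
      · rfl
      · simp only [Sum.elim_inr, Term.realize_subst]
        congr 1
        funext i
        rcases i with i | i <;> rfl
    rw [e1, e1] at h1
    have e2 : (J' ∘ φ) ∘ w' = J' ∘ w := funext fun i => congrArg J' (hw' i)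
    rw [e2, hτ] at h1
    refine Sy.congr ?_ h1.symm
    have h2 := hzS.comp (⟨Sum.map φ id, Function.Injective.sumMap hφi Function.injective_id⟩ :
      Y ⊕ Unit ↪ (Y ⊕ X) ⊕ Unit)
    have e3 : Sum.elim J' z ∘ (⟨Sum.map φ id, Function.Injective.sumMap hφi
        Function.injective_id⟩ : Y ⊕ Unit ↪ (Y ⊕ X) ⊕ Unit) =
        Sum.elim (J' ∘ φ) fun _ => z () := by
      funext v
      rcases v with v | v <;> rfl
    rw [e3] at h2
    exact h2

end Pool.Agent.H665.UE
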