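import Pool.Agent.H665.UA.Up

set_option autoImplicit false

/-!
# Uniform subfamilies of families of elements generated by an indiscernible family
-/

namespace Pool.Agent.H665.UE

open FirstOrder FirstOrder.Language Cardinal Ordinal
open Pool.Agent.K7.H47 Pool.Agent.H665.UA

variable {L : FirstOrder.Language.{0, 0}} {V W X Y T P S I : Type} {A B C : Type} [L.Structure A]
  [L.Structure B] [L.Structure C] {U : UC L}

theorem mk_iUnion_lt {κ : Cardinal.{0}} (hκ : κ.IsRegular) {ι : Type} (hι : #ι < κ)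
    {t : ι → Set I} (ht : ∀ i, #(t i) < κ) : #(⋃ i, t i : Set I) < κ :=
  (Cardinal.card_iUnion_lt_iff_forall_of_isRegular hκ hι).2 ht

/-- the Delta-system lemma for tuples -/
theorem exists_dsys {κ : Cardinal.{0}} (hκ : κ.IsRegular) (hI : #I = κ) {n : ℕ}
    (h : I → Fin n → X) : ∃ (R : Finset (Fin n)) (S : Set I), #S = κ ∧
      (∀ i ∈ S, ∀ i' ∈ S, ∀ j ∈ R, h i j = h i' j) ∧
      ∀ i ∈ S, ∀ i' ∈ S, i ≠ i' → ∀ j ∉ R, ∀ j', h i j ≠ h i' j' := by
  classical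
  have h0 : ℵ₀ ≤ κ := hκ.aleph0_le
  have hfin : ∀ D : Type, Finite D → #D < κ := fun D _ =>
    (Cardinal.lt_aleph0_of_finite D).trans_le h0
  let P : Finset (Fin n) → Prop := fun R => ∃ I1 : Set I, #I1 = κ ∧
    ∀ i ∈ I1, ∀ i' ∈ I1, ∀ j ∈ R, h i j = h i' j
  have hP0 : P ∅ := ⟨Set.univ, by rw [Cardinal.mk_univ, hI], fun i _ i' _ j hj => by simp at hj⟩
  obtain ⟨R, hR, hRmax⟩ := Finset.exists_max_image (Finset.univ.filter P) Finset.card
    ⟨∅, by simpa using hP0⟩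
  rw [Finset.mem_filter] at hR
  obtain ⟨I1, hI1, hI1'⟩ := hR.2
  have hsmall : ∀ (x : X) (j : Fin n), j ∉ R → #{i : I | i ∈ I1 ∧ h i j = x} < κ := by
    intro x j hj
    by_contra hcon
    have h1 : #{i : I | i ∈ I1 ∧ h i j = x} = κ := le_antisymm
      (hI1 ▸ Cardinal.mk_le_mk_of_subset fun i hi => hi.1) (not_lt.1 hcon)
    have h2 : P (insert j R) := by
      refine ⟨_, h1, fun i hi i' hi' j' hj' => ?_⟩
      rcases Finset.mem_insert.1 hj' with rfl | hj'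
      · exact hi.2.trans hi'.2.symm
      · exact hI1' i hi.1 i' hi'.1 j' hj'
    have h3 := hRmax (insert j R) (by simpa using h2)
    rw [Finset.card_insert_of_notMem hj] at h3
    omega
  obtain ⟨⟨i0, hi0⟩⟩ : Nonempty I1 := Cardinal.mk_ne_zero_iff.1 (by
    rw [hI1]
    exact (Cardinal.aleph0_pos.trans_le h0).ne')
  let Bd : X → Set I := fun x => ⋃ j : {j : Fin n // j ∉ R}, {i : I | i ∈ I1 ∧ h i j.1 = x}
  have hBd : ∀ x, #(Bd x) < κ := fun x =>
    mk_iUnion_lt hκ (hfin _ inferInstance) fun j => hsmall x j.1 j.2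
  let I2 : Set I := I1 \ ⋃ j' : Fin n, Bd (h i0 j')
  obtain ⟨M, -, hM⟩ := zorn_subset_nonempty {S : Set I | S ⊆ I2 ∧
      ∀ i ∈ S, ∀ i' ∈ S, i ≠ i' → ∀ j ∉ R, ∀ j' ∉ R, h i j ≠ h i' j'} (by
    intro c hc hch hcne
    refine ⟨⋃₀ c, ⟨Set.sUnion_subset fun S hS => (hc hS).1, ?_⟩,
      fun s hs => Set.subset_sUnion_of_mem hs⟩
    rintro i ⟨S, hS, hiS⟩ i' ⟨S', hS', hiS'⟩
    rcases hch.total hS hS' with h1 | h1
    · exact (hc hS').2 i (h1 hiS) i' hiS'
    · exact (hc hS).2 i hiS i' (h1 hiS')) ∅ ⟨Set.empty_subset _, fun i hi => absurd hi (by simp)⟩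
  have hM1 : ∀ i ∈ M, i ∈ I1 := fun i hi => (hM.prop.1 hi).1
  have hMc : #M = κ := by
    refine le_antisymm (hI ▸ Cardinal.mk_set_le M) ?_
    by_contra hcon
    have hcon := not_le.1 hcon
    have h1 : #((⋃ j' : Fin n, Bd (h i0 j')) ∪ (⋃ i : M, ⋃ j' : Fin n, Bd (h i.1 j')) ∪ M :
        Set I) < κ := by
      refine (Cardinal.mk_union_le _ _).trans_lt (Cardinal.add_lt_of_lt h0
        ((Cardinal.mk_union_le _ _).trans_lt (Cardinal.add_lt_of_lt h0 ?_ ?_)) hcon)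
      · exact mk_iUnion_lt hκ (hfin _ inferInstance) fun j => hBd _
      · exact mk_iUnion_lt hκ hcon fun i => mk_iUnion_lt hκ (hfin _ inferInstance) fun j => hBd _
    obtain ⟨i1, hi1, hi1'⟩ : ∃ i1 ∈ I1, i1 ∉ ((⋃ j' : Fin n, Bd (h i0 j')) ∪
        (⋃ i : M, ⋃ j' : Fin n, Bd (h i.1 j')) ∪ M : Set I) := by
      by_contra hc
      push Not at hc
      exact absurd (hI1 ▸ Cardinal.mk_le_mk_of_subset (s := I1) hc) (not_le.2 h1)
    simp only [Set.mem_union, not_or] at hi1'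
    obtain ⟨⟨hn1, hn2⟩, hn3⟩ := hi1'
    have hi12 : i1 ∈ I2 := ⟨hi1, hn1⟩
    have key : ∀ i ∈ M, ∀ j ∉ R, ∀ j', h i1 j ≠ h i j' := by
      intro i hi j hj j' hjj
      exact hn2 (Set.mem_iUnion.2 ⟨⟨i, hi⟩, Set.mem_iUnion.2 ⟨j', Set.mem_iUnion.2
        ⟨⟨j, hj⟩, hi1, hjj⟩⟩⟩)
    have h2 := hM.le_of_ge (y := insert i1 M) ⟨Set.insert_subset hi12 hM.prop.1, by
      rintro i (rfl | hi) i' (rfl | hi') hne j hj j' hj'
      · exact absurd rfl hne
      · exact key i' hi' j hj j'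
      · exact (key i hi j' hj' j).symm
      · exact hM.prop.2 i hi i' hi' hne j hj j' hj'⟩ (Set.subset_insert _ _)
    exact hn3 (h2 (Set.mem_insert _ _))
  refine ⟨R, M, hMc, fun i hi i' hi' j hj => hI1' i (hM1 i hi) i' (hM1 i' hi') j hj, ?_⟩
  intro i hi i' hi' hne j hj j'
  by_cases hj' : j' ∈ R
  · rw [hI1' i' (hM1 i' hi') i0 hi0 j' hj']
    intro hcon
    exact (hM.prop.1 hi).2 (Set.mem_iUnion.2 ⟨j', Set.mem_iUnion.2 ⟨⟨j, hj⟩, hM1 i hi, hcon⟩⟩)
  · exact hM.prop.2 i hi i' hi' hne j hj j' hj'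

theorem mk_term_le {lam : Cardinal.{0}} (hl : ℵ₀ ≤ lam) (hf : #(Σ n, L.Functions n) ≤ lam) :
    #(Σ n, L.Term (Fin n)) ≤ lam := by
  refine mk_sig hl (mk_nt hl) fun n => mk_tm' hl hf (mk_ft _ hl)

/-- a large family of elements generated by `x` has a large uniform subfamily -/
theorem exists_uniform (U : UC L) {x : X → B} {a : I → B} (hI : #I = Order.succ U.lam)
    (ha : ∀ i, a i ∈ Gn L x) : ∃ (S : Set I) (m k : ℕ) (p : Fin m ↪ X)
      (t : Unit → L.Term (Fin m ⊕ Fin k)) (H : S × Fin k → X), #S = Order.succ U.lam ∧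
      Function.Injective H ∧ (∀ i z, p i ≠ H z) ∧
      ∀ i : S, a i = Gt x p t (fun j => H (i, j)) () := by
  classical
  have hreg : (Order.succ U.lam).IsRegular := Cardinal.isRegular_succ U.hl
  have hl0 : ℵ₀ ≤ Order.succ U.lam := U.hl.trans (Order.le_succ _)
  choose n g t0 ht0 using fun i => Gn_fin (ha i)
  let code : I → Σ n, L.Term (Fin n) := fun i => ⟨n i, t0 i⟩
  obtain ⟨⟨n1, t1⟩, hc⟩ : ∃ c, #(code ⁻¹' {c}) = Order.succ U.lam := by
    by_contra hcon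
    push Not at hcon
    have h1 : ∀ c, #(code ⁻¹' {c}) < Order.succ U.lam := fun c =>
      lt_of_le_of_ne (hI ▸ Cardinal.mk_set_le _) (hcon c)
    have h2 := mk_iUnion_lt hreg ((mk_term_le U.hl U.hL).trans_lt (Order.lt_succ _)) h1
    have h3 : (⋃ c, code ⁻¹' {c}) = Set.univ := by
      refine Set.eq_univ_of_forall fun i => Set.mem_iUnion.2 ⟨code i, rfl⟩
    rw [h3, Cardinal.mk_univ, hI] at h2
    exact absurd h2 (lt_irrefl _)
  have hfib : ∀ i : (code ⁻¹' {⟨n1, t1⟩} : Set I), ∃ h : Fin n1 ↪ X,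
      a i = t1.realize (x ∘ h) := by
    rintro ⟨i, hi⟩
    have hi' : (⟨n i, t0 i⟩ : Σ n, L.Term (Fin n)) = ⟨n1, t1⟩ := hi
    have key : ∀ (q : Σ n, L.Term (Fin n)) (_ : (⟨n i, t0 i⟩ : Σ n, L.Term (Fin n)) = q),
        ∃ h : Fin q.1 ↪ X, a i = q.2.realize (x ∘ h) := by
      rintro _ rfl
      exact ⟨g i, (ht0 i).symm⟩
    exact key _ hi'
  choose h hh using hfib
  obtain ⟨R, S, hS, hSR, hSN⟩ := exists_dsys hreg hc (fun i => (h i : Fin n1 → X))
  obtain ⟨⟨i0, hi0⟩⟩ : Nonempty S := Cardinal.mk_ne_zero_iff.1 (by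
    rw [hS]
    exact (Cardinal.aleph0_pos.trans_le hl0).ne')
  obtain ⟨m, ⟨eR⟩⟩ := Finite.exists_equiv_fin {j : Fin n1 // j ∈ R}
  obtain ⟨k, ⟨eN⟩⟩ := Finite.exists_equiv_fin {j : Fin n1 // j ∉ R}
  let p : Fin m ↪ X := ⟨fun i => h i0 (eR.symm i).1, fun i j hij =>
    eR.symm.injective (Subtype.ext ((h i0).injective hij))⟩
  let t : Unit → L.Term (Fin m ⊕ Fin k) := fun _ => t1.subst fun j =>
    if hj : j ∈ R then Term.var (.inl (eR ⟨j, hj⟩)) else Term.var (.inr (eN ⟨j, hj⟩))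
  let S' : Set I := Subtype.val '' S
  have hS' : #S' = Order.succ U.lam := by
    rw [Cardinal.mk_image_eq Subtype.val_injective, hS]
  have hpre : ∀ i : S', ∃ s : S, s.1.1 = i.1 := by
    rintro ⟨_, s, hs, rfl⟩
    exact ⟨⟨s, hs⟩, rfl⟩
  choose s hs using hpre
  have hsinj : Function.Injective s := fun i j hij => Subtype.ext (by rw [← hs i, ← hs j, hij])
  let H : S' × Fin k → X := fun z => h (s z.1).1 (eN.symm z.2).1
  refine ⟨S', m, k, p, t, H, hS', ?_, ?_, ?_⟩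
  · rintro ⟨i, j⟩ ⟨i', j'⟩ hij
    by_cases hii : i = i'
    · subst hii
      have h1 := (h (s i).1).injective hij
      have h2 : j = j' := eN.symm.injective (Subtype.ext h1)
      rw [h2]
    · refine absurd hij (hSN _ (s i).2 _ (s i').2 (fun hcon => hii (hsinj (Subtype.ext hcon)))
        _ (eN.symm j).2 _)
  · rintro i ⟨i', j⟩ hij
    have h1 : h i0 (eR.symm i).1 = h (s i').1 (eN.symm j).1 := hij
    rw [hSR _ hi0 _ (s i').2 _ (eR.symm i).2] at h1
    have h2 := (h (s i').1).injective h1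
    exact (eN.symm j).2 (h2 ▸ (eR.symm i).2)
  · intro i
    have h1 := hh (s i).1
    rw [hs i] at h1
    rw [h1]
    show _ = (t1.subst _).realize _
    rw [Term.realize_subst]
    congr 1
    funext j
    by_cases hj : j ∈ R
    · simp only [hj, dif_pos, Term.realize_var, Sum.elim_inl, Function.comp_apply]
      show x (h (s i).1 j) = x (h i0 (eR.symm (eR ⟨j, hj⟩)).1)
      rw [Equiv.symm_apply_apply, hSR _ hi0 _ (s i).2 _ hj]
    · simp only [hj, dif_neg, not_false_eq_true, Term.realize_var, Sum.elim_inr,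
        Function.comp_apply]
      show x (h (s i).1 j) = x (h (s i).1 (eN.symm (eN ⟨j, hj⟩)).1)
      rw [Equiv.symm_apply_apply]

end Pool.Agent.H665.UE
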