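import Pool.Agent.H665.UE.Dn

set_option autoImplicit false

/-!
# Members that can be embedded into large members are generated by indiscernible families
-/

namespace Pool.Agent.H665.UE

open FirstOrder FirstOrder.Language Cardinal Ordinal
open Pool.Agent.K7.H47 Pool.Agent.H665.UA

variable {L : FirstOrder.Language.{0, 0}} {V W X Y T P S I D : Type} {A B C : Type}
  [L.Structure A] [L.Structure B] [L.Structure C] {U : UC L} {Ψ : Tp L}

theorem str_sy {m k : ℕ} (t : Unit → L.Term (Fin m ⊕ Fin k)) {x : X → B} (hx : Sy Ψ x)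
    {p : Fin m → X} {H : S × Fin k → X} (hp : Function.Injective p) (hH : Function.Injective H)
    (hpH : ∀ i z, p i ≠ H z)
    (hinj : Function.Injective fun i => Gt x p t (fun j => H (i, j)) ()) :
    Sy (Str Ψ t) fun i => Gt x p t (fun j => H (i, j)) () := by
  have hHg : ∀ {n : ℕ} (g : Fin n ↪ S), Function.Injective
      fun z : Fin n × Fin k => H (g z.1, z.2) := by
    rintro n g ⟨i, j⟩ ⟨i', j'⟩ hij
    have h1 := Prod.mk.inj (hH hij)
    have h2 : i = i' := g.injective h1.1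
    rw [h2, show j = j' from h1.2]
  refine ⟨hinj, fun n g f => ⟨fun h => ?_, fun h => ?_⟩⟩
  · intro A' _ X' x' hx' p' H' hp' hH' hpH'
    exact (str_te t hx hx' hp (hHg g) (fun i z => hpH i _) hp' hH' hpH' f).1 h
  · exact h B X x hx p (fun z => H (g z.1, z.2)) hp (hHg g) fun i z => hpH i _

theorem exists_init (hΨ : U.Gd Ψ) (hX : #X = U.mu) (hA : U.K A) (f : A ↪[L] B) {x : X → B}
    (hx : Sy Ψ x) {a : I → A} (ha : Function.Injective a) (hI : #I = Order.succ U.lam)
    (hfa : ∀ i, f (a i) ∈ Gn L x) :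
    ∃ (V : Type) (c : V → A), #V = Order.succ U.lam ∧ Sy Ψ c := by
  classical
  have hl0 := U.hl
  have hm0 : ℵ₀ ≤ U.mu := U.hl.trans U.hm.le
  obtain ⟨S, m, k, p, t, H, hS, hH, hpH, hrep⟩ := exists_uniform U hI hfa
  have hSinf : Infinite S := Cardinal.infinite_iff.2 (hS ▸ hl0.trans (Order.le_succ _))
  let a' : S → A := fun i => a i
  have e1 : (fun i : S => Gt x p t (fun j => H (i, j)) ()) = f ∘ a' :=
    funext fun i => (hrep i).symm
  have h1 : Sy (Str Ψ t) (f ∘ a') := by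
    have h2 := str_sy t hx p.injective hH hpH (by
      rw [e1]
      exact f.injective.comp (ha.comp Subtype.val_injective))
    rwa [e1] at h2
  have ha' : Sy (Str Ψ t) a' := h1.congr (TE.emb f a').symm
  have hΦ : U.Gd (Str Ψ t) := ⟨A, inferInstance, hA, _, ha'.comp (Infinite.natEmbedding S)⟩
  obtain ⟨G, _, hG, e, he, heG⟩ := hΦ.free X
  have hGc : #(Gn L e) = U.mu := he.mk_Gn hX
  obtain ⟨w, hw, -⟩ := hΨ.basis (X := X) hG e hGc hX
  obtain ⟨V0, hV0⟩ := Cardinal.le_mk_iff_exists_set.1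
    (show Order.succ U.lam ≤ #X from hX ▸ Order.succ_le_of_lt U.hm)
  obtain ⟨S2, m2, k2, p2, t2, H2, hS2, hH2, hpH2, hrep2⟩ := exists_uniform U (x := e)
    (a := fun v : V0 => w v) hV0 (fun v => heG ▸ Set.mem_univ _)
  obtain ⟨⟨ι⟩⟩ : Nonempty (Nonempty ((Fin m2 ⊕ (S2 × Fin k2)) ↪ S)) := by
    refine ⟨(Cardinal.le_def _ _).1 ?_⟩
    have h0 : ℵ₀ ≤ Order.succ U.lam := hl0.trans (Order.le_succ _)
    rw [hS, Cardinal.mk_sum, Cardinal.lift_id, Cardinal.lift_id, Cardinal.mk_prod,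
      Cardinal.lift_id, Cardinal.lift_id, hS2]
    exact Cardinal.add_le_of_le h0 ((Cardinal.lt_aleph0_of_finite _).le.trans h0)
      ((mul_le_mul' le_rfl ((Cardinal.lt_aleph0_of_finite _).le.trans h0)).trans
        (Cardinal.mul_eq_self h0).le)
  have h2 := str_te t2 he ha' (p := p2) (q := ι ∘ Sum.inl) (H := H2) (H' := ι ∘ Sum.inr)
    p2.injective hH2 hpH2 (ι.injective.comp Sum.inl_injective)
    (ι.injective.comp Sum.inr_injective) (fun i z hz => by
      have := ι.injective hz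
      cases this)
  refine ⟨S2, _, hS2, Sy.congr ?_ h2⟩
  have e2 : (fun θ : S2 => Gt e p2 t2 (fun j => H2 (θ, j)) ()) = fun θ : S2 => w θ.1 :=
    funext fun θ => (hrep2 θ).symm
  rw [e2]
  exact hw.comp ((Function.Embedding.subtype _).trans (Function.Embedding.subtype _))

/-- **Members that can be embedded into large members are generated by indiscernible families** -/
theorem exists_gen_down (hΨ : U.Gd Ψ) (hX : #X = U.mu) (hNV : NV U Ψ X) (hA : U.K A)
    (hAl : U.lam < #A) (hB : U.K B) (hBm : U.mu ≤ #B) (f : A ↪[L] B) :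
    ∃ (X : Type) (J : X → A), Sy Ψ J ∧ Gn L J = Set.univ := by
  classical
  have hm0 : ℵ₀ ≤ U.mu := U.hl.trans U.hm.le
  rcases le_or_gt U.mu #A with hAm | hAm
  · exact exists_gen_up hΨ hX hNV hA hAm
  obtain ⟨C0, hC0⟩ := Cardinal.le_mk_iff_exists_set.1 hBm
  let C : Set B := C0 ∪ Set.range f
  have hC : #C = U.mu := by
    refine le_antisymm ((Cardinal.mk_union_le _ _).trans ?_) ?_
    · exact Cardinal.add_le_of_le hm0 hC0.le (Cardinal.mk_range_le.trans hAm.le)
    · rw [← hC0]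
      exact Cardinal.mk_le_mk_of_subset Set.subset_union_left
  have h1 : #(Gn L fun c : C => c.1) = U.mu := by
    refine le_antisymm ((U.mk_Gn _).trans (max_le U.hm.le hC.le)) ?_
    rw [← hC]
    exact Cardinal.mk_le_mk_of_subset fun c hc => mem_Gn (v := fun c : C => c.1) ⟨c, hc⟩
  obtain ⟨x, hx, hxG⟩ := hΨ.basis (X := X) hB _ h1 hX
  have hfx : ∀ a, f a ∈ Gn L x := fun a => hxG ▸
    mem_Gn (v := fun c : C => c.1) ⟨f a, Or.inr ⟨a, rfl⟩⟩
  obtain ⟨A0, hA0⟩ := Cardinal.le_mk_iff_exists_set.1 (Order.succ_le_of_lt hAl)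
  obtain ⟨V, c, hV, hc⟩ := exists_init hΨ hX hA f hx (a := fun a : A0 => a.1)
    Subtype.val_injective hA0 fun i => hfx _
  refine exists_gen_max hc hV.ge fun Y J hJ hY hG => ?_
  obtain ⟨a, ha⟩ := (Set.ne_univ_iff_exists_notMem _).1 hG
  have hYm : #Y < U.mu := (Cardinal.mk_le_of_injective hJ.1).trans_lt hAm
  obtain ⟨z, hz, hzS⟩ := nv_down hΨ hX hNV hB hx (J := f ∘ J) (hJ.congr (TE.emb f J))
    ((Order.lt_succ _).trans_le hY) hYm (fun y => hfx _) (a := fun _ => f a) (hfx _) (by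
      rw [Gn_emb]
      rintro ⟨b, hb, hba⟩
      exact ha (f.injective hba ▸ hb))
  have e1 : Sum.elim (f ∘ J) (fun _ : Unit => f a) = f ∘ Sum.elim J fun _ => a := by
    funext v
    rcases v with v | v <;> rfl
  rw [e1, Gn_emb] at hz
  obtain ⟨z', -, hz'⟩ := hz
  refine ⟨fun _ => z', hzS.congr ?_⟩
  have e2 : Sum.elim (f ∘ J) z = f ∘ Sum.elim J fun _ => z' := by
    funext v
    rcases v with v | v
    · rfl
    · exact hz'.symm
  rw [e2]
  exact (TE.emb f _).symm

end Pool.Agent.H665.UE
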