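import Pool.Agent.H665.UE.Ch
import Pool.Agent.H665.UA.Mn

set_option autoImplicit false

/-!
# Members that can be extended to large members
-/

namespace Pool.Agent.H665.UE

open FirstOrder FirstOrder.Language Cardinal Ordinal
open Pool.Agent.K7.H47 Pool.Agent.H665.UA
open Pool.Agent.H288R4.LS (AEC bethFrom self_lt_hanf lt_hanf LSat_LS)

theorem exists_mainv {L : FirstOrder.Language.{0, 0}} {U : UC L} {δ : Ordinal.{0}}
    {bt : Ordinal.{0} → Cardinal.{0}}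
    {Ad : ∀ α : Type, ((α → Prop) → Prop) → Prop} (h : HC U.lam δ bt Ad) (hK : KAx U Ad)
    (hR : #(Σ n, L.Relations n) ≤ U.lam)
    (hb : ∀ α, α < δ → ∃ (A : Type) (_ : L.Structure A), U.K A ∧ bt α ≤ #A) :
    ∃ Ψ : Tp L, U.Gd Ψ ∧ NV U Ψ U.mu.out := by
  obtain ⟨Θ, hΘ⟩ := exists_EMt' h hK hR hb
  obtain ⟨α1, hα1, hop⟩ := op_bound h hK hR hΘ.few (dl_of_lt U.hl U.hm)
  obtain ⟨Φ, hΦ⟩ := hΘ.gd hop
  obtain ⟨Ψ, hΨ, hNV⟩ := exists_nv (X := U.mu.out) hΦ (Cardinal.mk_out _)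
  exact ⟨Ψ, hΨ, hNV⟩

variable {L : FirstOrder.Language.{0, 0}} {K : AEC L} {Λ : Type}

/-- strong embeddings of canonical structures -/
theorem can_emb {A B : Type} [L.Structure A] [(LX L Λ).Structure A] [L.Structure B]
    [(LX L Λ).Structure B] (hI : AInt K) (hU : Rig K) (hA : Can K Λ A) (hB : Can K Λ B)
    {f : A ↪[L] B} (hf : K.emb f) : ∃ g : A ↪[LX L Λ] B, ⇑g = f := by
  refine ⟨{ toEmbedding := f.toEmbedding, map_fun' := ?_, map_rel' := ?_ }, rfl⟩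
  · intro n φ a
    rcases φ with φ | ⟨i, hn⟩
    · have h1 := hA.cmp.fn φ a
      have h2 := hB.cmp.fn φ (f ∘ a)
      exact (congrArg f h1).trans ((f.map_fun φ a).trans h2.symm)
    · have h1 := hA.can hn i a
      have h2 := hB.can hn i (f ∘ a)
      refine (congrArg f h1).trans (Eq.trans ?_ h2.symm)
      exact cf_nat hI hU hf hn i a
  · intro n R a
    exact (hB.cmp.rl (n := n) R (f ∘ a)).trans ((f.map_rel (n := n) R a).trans
      (hA.cmp.rl (n := n) R a).symm)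

/-- the member can be extended to a member of size at least `μ` -/
def Ext (K : AEC L) (M : Type) [L.Structure M] (μ : Cardinal.{0}) : Prop :=
  ∃ (N : Type) (_ : L.Structure N), μ ≤ #N ∧ ∃ f : M ↪[L] N, K.emb f

/-- no maximal members -/
def NoMax (K : AEC L) : Prop :=
  ∀ (M : Type) [L.Structure M], K.mem M → K.lsNum < #M → #M < K.H1 →
    ∃ (N : Type) (_ : L.Structure N) (f : M ↪[L] N), K.emb f ∧ ¬ Function.Surjective f

/-- the member can be extended to a large structure of the universal class -/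
def Exu {μ : Cardinal.{0}} (hI : AInt K) (hU : Rig K) (hμ : K.lsNum < μ)
    (hcat : K.Categorical μ) (M : Type) [L.Structure M] : Prop :=
  let _ := ex K K.lsNum.out M
  ∃ (B : Type) (_ : (LX L K.lsNum.out).Structure B), (uc hI hU μ hμ hcat).K B ∧ μ ≤ #B ∧
    Nonempty (M ↪[LX L K.lsNum.out] B)

theorem exu_of_ext {μ : Cardinal.{0}} (hI : AInt K) (hU : Rig K) (hμ : K.lsNum < μ)
    (hcat : K.Categorical μ) {M : Type} [L.Structure M] (h : Ext K M μ) :
    Exu hI hU hμ hcat M := by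
  obtain ⟨N, _, hN, f, hf⟩ := h
  have hM := (K.emb_mem _ hf).1
  have hNm := (K.emb_mem _ hf).2
  let Λ := K.lsNum.out
  let _ := ex K Λ M
  let _ := ex K Λ N
  obtain ⟨g, -⟩ := can_emb (Λ := Λ) hI hU (ex_can hM) (ex_can hNm) hf
  exact ⟨N, inferInstance, ex_mem hNm Λ, hN, ⟨g⟩⟩

theorem gen_ext (hI : AInt K) (hU : Rig K) (hbig : ∀ χ : Cardinal.{0}, χ < K.H1 →
      ∃ (M : Type) (_ : L.Structure M), K.mem M ∧ χ ≤ #M) (μ : Cardinal.{0}) (hμ : K.lsNum < μ)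
    (hcat : K.Categorical μ) :
    ∃ Ψ : Tp (LX L K.lsNum.out), (uc hI hU μ hμ hcat).Gd Ψ ∧
      ∀ (M : Type) [L.Structure M], K.mem M → K.lsNum < #M → Exu hI hU hμ hcat M →
      let _ := ex K K.lsNum.out M
      ∃ (X : Type) (J : X → M), Sy Ψ J ∧ Gn (LX L K.lsNum.out) J = Set.univ := by
  classical
  have hls := LSat_LS K
  have h0 := hls.1
  have hΛ : #K.lsNum.out = K.lsNum := Cardinal.mk_out _
  let Λ := K.lsNum.out
  let U := uc hI hU μ hμ hcat
  obtain ⟨Ψ, hΨ, hNV⟩ := exists_mainv (U := U)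
    (h := hc_T (lam := K.lsNum) h0)
    (by
      refine ⟨ℕ, fun n => ⟨n, fun p => ∃ (N : Type) (_ : L.Structure N), K.mem N ∧
        ∃ b : Fin n → N, let _ := ex K Λ N; ∀ f : Fa (LX L Λ) (Fin n), p f ↔ f.H b⟩, ?_, ?_, ?_⟩
      · rw [Cardinal.mk_nat]
        exact h0
      · intro k
        trivial
      · intro A _
        exact Iff.rfl)
    (by
      refine le_trans ?_ hls.2.1
      show #(Σ n, L.Relations n) ≤ #((Σ l, L.Functions l) ⊕ Σ l, L.Relations l)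
      exact Cardinal.mk_le_of_injective Sum.inr_injective)
    (fun α hα => by
      obtain ⟨M, _, hM, hMc⟩ := hbig _ (bethFrom_lt_hanf h0 hα)
      exact ⟨M, ex K Λ M, ex_mem hM Λ, hMc⟩)
  refine ⟨Ψ, hΨ, ?_⟩
  intro M _ hM hMc hext
  let _ := ex K Λ M
  obtain ⟨B, _, hB, hBm, ⟨f⟩⟩ := hext
  exact exists_gen_down (U := U) hΨ (Cardinal.mk_out _) hNV (ex_mem hM Λ) hMc hB hBm f

theorem sg_of_gen (hI : AInt K) (hU : Rig K) {μ : Cardinal.{0}} {hμ : K.lsNum < μ}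
    {hcat : K.Categorical μ} {Ψ : Tp (LX L K.lsNum.out)}
    {M : Type} [L.Structure M] (hM : K.mem M) (hMc : K.lsNum < #M)
    (h : let _ := ex K K.lsNum.out M
      ∃ (X : Type) (J : X → M), Sy Ψ J ∧ Gn (LX L K.lsNum.out) J = Set.univ) : SG K M := by
  classical
  let Λ := K.lsNum.out
  let U := uc hI hU μ hμ hcat
  let _ := ex K Λ M
  have hcan := ex_can (Λ := Λ) hM
  obtain ⟨X, J, hJ, hJG⟩ := h
  have h1 : #X = #M := hJ.card (U := U) hJG hMc
  refine ⟨Set.range J, (Cardinal.mk_range_eq _ hJ.1).trans h1, ?_, ?_⟩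
  · intro A hA hS
    let B : (LX L Λ).Substructure M :=
      { carrier := A
        fun_mem := by
          rintro n (f | ⟨i, hn⟩) c hc
          · exact A.fun_mem f c hc
          · refine cl_le hA ?_ (cf_mem (K := K) M hn i c)
            rintro _ ⟨j, rfl⟩
            exact hc j }
    refine top_unique fun x _ => ?_
    have h2 : x ∈ Gn (LX L Λ) J := hJG ▸ Set.mem_univ x
    obtain ⟨t, rfl⟩ := h2
    have h3 : t.realize J ∈ B := t.realize_mem _ fun i => hS ⟨i, rfl⟩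
    exact h3
  · intro π
    let E : X ≃ Set.range J := Equiv.ofInjective J hJ.1
    obtain ⟨g, hg⟩ := hJ.iso hJG hJ hJG ((E.trans π).trans E.symm)
    refine ⟨eqL hcan.cmp hcan.cmp g, fun s => ?_⟩
    obtain ⟨i, rfl⟩ := E.surjective s
    show g (J i) = π (E i)
    rw [hg i]
    exact Equiv.apply_ofInjective_symm hJ.1 (π (E i))

theorem iso_of_gen (hI : AInt K) (hU : Rig K) {μ : Cardinal.{0}} {hμ : K.lsNum < μ}
    {hcat : K.Categorical μ} {Ψ : Tp (LX L K.lsNum.out)}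
    {M N : Type} [L.Structure M] [L.Structure N] (hM : K.mem M) (hN : K.mem N)
    (hMc : K.lsNum < #M) (hMN : #M = #N)
    (h : let _ := ex K K.lsNum.out M
      ∃ (X : Type) (J : X → M), Sy Ψ J ∧ Gn (LX L K.lsNum.out) J = Set.univ)
    (h' : let _ := ex K K.lsNum.out N
      ∃ (X : Type) (J : X → N), Sy Ψ J ∧ Gn (LX L K.lsNum.out) J = Set.univ) :
    Nonempty (M ≃[L] N) := by
  classical
  let Λ := K.lsNum.out
  let U := uc hI hU μ hμ hcat
  let _ := ex K Λ M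
  let _ := ex K Λ N
  obtain ⟨X, J, hJ, hJG⟩ := h
  obtain ⟨Y, J', hJ', hJG'⟩ := h'
  have h1 : #X = #M := hJ.card (U := U) hJG hMc
  have h2 : #Y = #N := hJ'.card (U := U) hJG' (hMN ▸ hMc)
  obtain ⟨e⟩ := Cardinal.eq.1 ((h1.trans hMN).trans h2.symm)
  obtain ⟨g, -⟩ := hJ.iso hJG hJ' hJG' e
  exact ⟨eqL (ex_can hM).cmp (ex_can hN).cmp g⟩

/-- strong submodels of prescribed size -/
theorem exists_strong (K : AEC L) {N : Type} [L.Structure N] (hN : K.mem N) {κ : Cardinal.{0}}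
    (hκ : K.lsNum ≤ κ) (hκN : κ ≤ #N) (S : Set N) (hS : #S ≤ κ) :
    ∃ A : L.Substructure N, K.emb A.subtype ∧ S ⊆ A ∧ #A = κ := by
  have hls := LSat_LS K
  obtain ⟨T, hT⟩ := Cardinal.le_mk_iff_exists_set.1 hκN
  have h0 : ℵ₀ ≤ κ := hls.1.trans hκ
  obtain ⟨A, hA1, hA2, hA3⟩ := hls.2.2 N hN (S ∪ T)
  refine ⟨A, hA2, Set.subset_union_left.trans hA1, le_antisymm (hA3.trans ?_) ?_⟩
  · refine Cardinal.add_le_of_le h0 ((Cardinal.mk_union_le _ _).trans ?_) hκ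
    exact Cardinal.add_le_of_le h0 hS hT.le
  · rw [← hT]
    exact Cardinal.mk_le_mk_of_subset (Set.subset_union_right.trans hA1)

/-- no maximal members: every member can be extended to arbitrarily large structures -/
theorem NoMax.big (hI : AInt K) (hU : Rig K) (hmax : NoMax K) {μ : Cardinal.{0}}
    (hμ : K.lsNum < μ) (hcat : K.Categorical μ) {θ : Cardinal.{0}} (hθ : θ ≤ K.H1) {M : Type}
    [L.Structure M] (hM : K.mem M) (hMc : K.lsNum < #M) :
    let _ := ex K K.lsNum.out M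
    ∃ (B : Type) (_ : (LX L K.lsNum.out).Structure B), (uc hI hU μ hμ hcat).K B ∧ θ ≤ #B ∧
    Nonempty (M ↪[LX L K.lsNum.out] B) := by
  classical
  have hls := LSat_LS K
  have h0 := hls.1
  have hΛ : #K.lsNum.out = K.lsNum := Cardinal.mk_out _
  let Λ := K.lsNum.out
  let U := uc hI hU μ hμ hcat
  let _ := ex K Λ M
  refine exists_big (U := U) (θ := θ) (fun B _ hB hBl hBθ => ?_) (ex_mem hM Λ) hMc
  let _ := red L Λ B
  have : Nonempty B := Cardinal.mk_ne_zero_iff.1 fun h => by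
    have h1 : K.lsNum < #B := hBl
    rw [h] at h1
    exact not_lt_zero h1
  have cB : Cmp L Λ B := ⟨fun _ _ => rfl, fun _ _ => Iff.rfl⟩
  have hcan := KK.can hls hΛ hI hU cB hB
  obtain ⟨N, _, f, hf, hfs⟩ := hmax B hcan.mem hBl (hBθ.trans_le hθ)
  have hN := (K.emb_mem _ hf).2
  let _ := ex K Λ N
  obtain ⟨g, hg⟩ := can_emb hI hU hcan (ex_can hN) hf
  exact ⟨N, inferInstance, ex_mem hN Λ, g, hg ▸ hfs⟩

theorem NoMax.large (hI : AInt K) (hU : Rig K) (hmax : NoMax K) {μ : Cardinal.{0}}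
    (hμ : K.lsNum < μ) (hcat : K.Categorical μ) {θ : Cardinal.{0}} (hθ : θ ≤ K.H1) :
    ∃ (M : Type) (_ : L.Structure M), K.mem M ∧ θ ≤ #M := by
  obtain ⟨M, _, hM, hMc⟩ := hcat.1
  have h0 := (LSat_LS K).1
  have hH : Order.succ K.lsNum ≤ K.H1 := Order.succ_le_of_lt (self_lt_hanf h0)
  obtain ⟨B, _, hB, hBc, -⟩ := hmax.big hI hU hμ hcat (max_le hH hθ) hM (hMc ▸ hμ)
  let _ := red L K.lsNum.out B
  have h1 : K.lsNum < #B := (Order.lt_succ _).trans_le ((le_max_left _ _).trans hBc)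
  have : Nonempty B := Cardinal.mk_ne_zero_iff.1 fun h => by
    rw [h] at h1
    exact not_lt_zero h1
  have cB : Cmp L K.lsNum.out B := ⟨fun _ _ => rfl, fun _ _ => Iff.rfl⟩
  exact ⟨B, inferInstance, (KK.can (LSat_LS K) (Cardinal.mk_out _) hI hU cB hB).mem,
    (le_max_right _ _).trans hBc⟩

/-- **members that can be extended to large members** -/
theorem main_ext (hI : AInt K) (hU : Rig K) (hbig : ∀ χ : Cardinal.{0}, χ < K.H1 →
      ∃ (M : Type) (_ : L.Structure M), K.mem M ∧ χ ≤ #M) {μ : Cardinal.{0}} (hμ : K.lsNum < μ)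
    (hcat : K.Categorical μ) :
    (∀ (M : Type) [L.Structure M], K.mem M → K.lsNum < #M → Exu hI hU hμ hcat M → SG K M) ∧
    ∀ (M N : Type) [L.Structure M] [L.Structure N], K.mem M → K.mem N → K.lsNum < #M →
      #M = #N → Exu hI hU hμ hcat M → Exu hI hU hμ hcat N → Nonempty (M ≃[L] N) := by
  obtain ⟨Ψ, hΨ, h⟩ := gen_ext hI hU hbig μ hμ hcat
  refine ⟨fun M _ hM hMc hE => ?_, fun M N _ _ hM hN hMc hMN hE hE' => ?_⟩
  · exact sg_of_gen hI hU (hμ := hμ) (hcat := hcat) hM hMc (h M hM hMc hE)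
  · exact iso_of_gen hI hU (hμ := hμ) (hcat := hcat) hM hN hMc hMN (h M hM hMc hE)
      (h N hN (hMN ▸ hMc) hE')

/-- **no maximal members** -/
theorem main_nomax (hI : AInt K) (hU : Rig K) (hmax : NoMax K) {μ : Cardinal.{0}}
    (hμ : K.lsNum < μ) (hcat : K.Categorical μ) :
    (∀ μ' : Cardinal.{0}, K.lsNum < μ' → K.Categorical μ') ∧
      ∀ (M : Type) [L.Structure M], K.mem M → K.lsNum < #M → SG K M := by
  have hbig : ∀ χ : Cardinal.{0}, χ < K.H1 →
      ∃ (M : Type) (_ : L.Structure M), K.mem M ∧ χ ≤ #M := fun χ hχ =>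
    hmax.large hI hU hμ hcat hχ.le
  obtain ⟨κ, hκ, -, hκH, hcatκ, -⟩ := main hI hU hbig μ hμ hcat
  obtain ⟨h1, h2⟩ := main_ext hI hU hbig hκ (hcatκ κ le_rfl)
  refine ⟨fun μ' hμ' => ⟨?_, fun M N _ _ hM hN hMc hNc => ?_⟩, fun M _ hM hMc =>
    h1 M hM hMc (hmax.big hI hU hκ (hcatκ κ le_rfl) hκH.le hM hMc)⟩
  · obtain ⟨N, _, hN, hNc⟩ := (hcatκ (max κ μ') (le_max_left _ _)).1
    obtain ⟨A, hA, -, hAc⟩ := exists_strong K hN hμ'.le (hNc ▸ le_max_right _ _) ∅ (by simp)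
    exact ⟨A, inferInstance, (K.emb_mem _ hA).1, hAc⟩
  · exact h2 M N hM hN (hMc ▸ hμ') (hMc.trans hNc.symm)
      (hmax.big hI hU hκ (hcatκ κ le_rfl) hκH.le hM (hMc ▸ hμ'))
      (hmax.big hI hU hκ (hcatκ κ le_rfl) hκH.le hN (hNc ▸ hμ'))

end Pool.Agent.H665.UE
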