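import Pool.Agent.H665.UE.Mn

set_option autoImplicit false

/-!
# Extensions of generating families, free amalgams and orbits
-/

namespace Pool.Agent.H665.UE

open FirstOrder FirstOrder.Language Cardinal Ordinal
open Pool.Agent.K7.H47 Pool.Agent.H665.UA
open Pool.Agent.H288R4.LS (AEC bethFrom self_lt_hanf lt_hanf LSat_LS)

section

variable {L : FirstOrder.Language.{0, 0}} {V W X Y Z : Type} {A B C : Type} [L.Structure A]
  [L.Structure B] [L.Structure C] {U : UC L}

/-- families can be extended to generating families -/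
theorem exists_gen_over {Ψ : Tp L} {χ : Cardinal.{0}} {J : X → A} (hJ : Sy Ψ J) (hX : χ ≤ #X)
    (hext : ∀ (Y : Type) (J : Y → A), Sy Ψ J → χ ≤ #Y → Gn L J ≠ Set.univ →
      ∃ z : Unit → A, Sy Ψ (Sum.elim J z)) :
    ∃ (Z : Type) (J' : X ⊕ Z → A), Sy Ψ J' ∧ Gn L J' = Set.univ ∧ ∀ x, J' (.inl x) = J x := by
  classical
  obtain ⟨M, hM, hMmax⟩ := zorn_subset_nonempty {S : Set A | Sy Ψ (fun s : S => s.1)} (by
    intro c hc hch hcne
    refine ⟨⋃₀ c, ?_, fun s hs => Set.subset_sUnion_of_mem hs⟩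
    refine Sy.loc fun n g => ?_
    have h1 : ∃ S ∈ c, ∀ i, (g i).1 ∈ S := by
      have h2 : ∀ F : Set A, F.Finite → F ⊆ ⋃₀ c → ∃ S ∈ c, F ⊆ S := by
        intro F hF
        induction F, hF using Set.Finite.induction_on with
        | empty =>
          obtain ⟨S, hS⟩ := hcne
          exact fun _ => ⟨S, hS, Set.empty_subset _⟩
        | @insert a F _ _ ih =>
          intro h3
          obtain ⟨S, hS, hS'⟩ := ih fun y hy => h3 (Or.inr hy)
          obtain ⟨S2, hS2, hS2'⟩ := h3 (Or.inl rfl)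
          rcases hch.total hS hS2 with h4 | h4
          · exact ⟨S2, hS2, Set.insert_subset hS2' (hS'.trans h4)⟩
          · exact ⟨S, hS, Set.insert_subset (h4 hS2') hS'⟩
      obtain ⟨S, hS, hS'⟩ := h2 (Set.range fun i => (g i).1) (Set.finite_range _) (by
        rintro _ ⟨i, rfl⟩
        exact (g i).2)
      exact ⟨S, hS, fun i => hS' ⟨i, rfl⟩⟩
    obtain ⟨S, hS, hS'⟩ := h1
    have h2 : Sy Ψ (fun s : S => s.1) := hc hS
    exact h2.comp ⟨fun i : Fin n => ⟨(g i).1, hS' i⟩, fun i j hij =>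
      g.injective (Subtype.ext (congrArg (fun z : S => z.1) hij))⟩) (Set.range J) (by
    have h1 := hJ.comp ((Equiv.ofInjective J hJ.1).symm.toEmbedding)
    have e : J ∘ (Equiv.ofInjective J hJ.1).symm.toEmbedding =
        fun s : Set.range J => s.1 := by
      funext s
      exact Equiv.apply_ofInjective_symm hJ.1 s
    rw [e] at h1
    exact h1)
  have hMG : Gn L (fun s : M => s.1) = Set.univ := by
    by_contra hne
    have hMc : χ ≤ #M := by
      refine hX.trans ?_
      rw [← Cardinal.mk_range_eq J hJ.1]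
      exact Cardinal.mk_le_mk_of_subset hM
    obtain ⟨z, hz⟩ := hext M (fun s => s.1) hMmax.prop hMc hne
    have hzM : z () ∉ M := by
      intro h
      have h1 : (Sum.inl ⟨z (), h⟩ : M ⊕ Unit) = Sum.inr () := hz.1 rfl
      cases h1
    have h2 : insert (z ()) M ∈ {S : Set A | Sy Ψ (fun s : S => s.1)} := by
      let E : (insert (z ()) M : Set A) → M ⊕ Unit := fun s =>
        if h : s.1 ∈ M then .inl ⟨s.1, h⟩ else .inr ()
      have hE : ∀ s, Sum.elim (fun s : M => s.1) z (E s) = s.1 := by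
        intro s
        by_cases h : s.1 ∈ M
        · have h3 : E s = .inl ⟨s.1, h⟩ := dif_pos h
          rw [h3]
          rfl
        · have h3 : E s = .inr () := dif_neg h
          rw [h3]
          exact (s.2.resolve_right h).symm
      have hEinj : Function.Injective E := by
        intro s s' hss
        refine Subtype.ext ?_
        rw [← hE s, ← hE s', hss]
      have h3 := hz.comp ⟨E, hEinj⟩
      have e : Sum.elim (fun s : M => s.1) z ∘ (⟨E, hEinj⟩ : _ ↪ _) =
          fun s : (insert (z ()) M : Set A) => s.1 := funext hE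
      rw [e] at h3
      exact h3
    exact hzM (hMmax.le_of_ge h2 (Set.subset_insert _ _) (Set.mem_insert _ _))
  let E : X ⊕ (M \ Set.range J : Set A) → M := fun v => match v with
    | .inl x => ⟨J x, hM ⟨x, rfl⟩⟩
    | .inr z => ⟨z.1, z.2.1⟩
  have hE : Function.Injective E := by
    rintro (x | z) (x' | z') h
    · exact congrArg Sum.inl (hJ.1 (congrArg Subtype.val h))
    · exact absurd ⟨x, congrArg Subtype.val h⟩ z'.2.2
    · exact absurd ⟨x', (congrArg Subtype.val h).symm⟩ z.2.2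
    · have h1 : z.1 = z'.1 := congrArg (fun s : M => s.1) h
      exact congrArg Sum.inr (Subtype.ext h1)
  have h1 := hMmax.prop.comp ⟨E, hE⟩
  refine ⟨(M \ Set.range J : Set A), fun v => (E v).1, h1, ?_, fun x => rfl⟩
  refine Set.eq_univ_of_univ_subset ?_
  rw [← hMG]
  refine Gn_sub fun s => ?_
  by_cases hs : s.1 ∈ Set.range J
  · obtain ⟨x, hx⟩ := hs
    rw [← hx]
    exact mem_Gn (v := fun v => (E v).1) (.inl x)
  · exact mem_Gn (v := fun v => (E v).1) (.inr ⟨s.1, s.2, hs⟩)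

/-- free amalgams are disjoint -/
theorem free_disjoint [Infinite X] {Ψ : Tp L} {e : X ⊕ (Y ⊕ Z) → C} (he : Sy Ψ e) {c : C}
    (h1 : c ∈ Gn L fun v : X ⊕ Y => e (Sum.map id Sum.inl v))
    (h2 : c ∈ Gn L fun v : X ⊕ Z => e (Sum.map id Sum.inr v)) :
    c ∈ Gn L fun x : X => e (.inl x) := by
  classical
  obtain ⟨t, rfl⟩ := h1
  obtain ⟨s, hs⟩ := h2
  have hH : (Sum.inr ⁻¹' tv s : Set Z).Finite := (tv_fin s).preimage Sum.inr_injective.injOn
  have hF : ((Sum.inl ⁻¹' tv t : Set X) ∪ Sum.inl ⁻¹' tv s).Finite :=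
    ((tv_fin t).preimage Sum.inl_injective.injOn).union
      ((tv_fin s).preimage Sum.inl_injective.injOn)
  have := hH.to_subtype
  have := hF.infinite_compl.to_subtype
  obtain ⟨n, ⟨E⟩⟩ := Finite.exists_equiv_fin (Sum.inr ⁻¹' tv s : Set Z)
  let r : (Sum.inr ⁻¹' tv s : Set Z) → X := fun z =>
    (Infinite.natEmbedding (((Sum.inl ⁻¹' tv t : Set X) ∪ Sum.inl ⁻¹' tv s)ᶜ : Set X)
      (E z).val).1
  have hr : Function.Injective r := by
    intro z z' h
    have h3 := (Infinite.natEmbedding _).injective (Subtype.ext h)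
    exact E.injective (Fin.ext h3)
  have hrF : ∀ z, r z ∉ (Sum.inl ⁻¹' tv t : Set X) ∪ Sum.inl ⁻¹' tv s := fun z =>
    (Infinite.natEmbedding (((Sum.inl ⁻¹' tv t : Set X) ∪ Sum.inl ⁻¹' tv s)ᶜ : Set X)
      (E z).val).2
  let σ : X ⊕ Z → X := Sum.elim id fun z =>
    if h : z ∈ (Sum.inr ⁻¹' tv s : Set Z) then r ⟨z, h⟩ else Classical.arbitrary X
  have hσ : ∀ z (h : (Sum.inr z : X ⊕ Z) ∈ tv s), σ (.inr z) = r ⟨z, h⟩ := fun z h => dif_pos h
  let p : tv t ⊕ tv s → X ⊕ (Y ⊕ Z) := Sum.elim (fun v => Sum.map id Sum.inl v.1)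
    fun v => Sum.map id Sum.inr v.1
  let q : tv t ⊕ tv s → X ⊕ (Y ⊕ Z) := Sum.elim (fun v => Sum.map id Sum.inl v.1)
    fun v => .inl (σ v.1)
  have k1 : ∀ (v : tv t) (w : tv s), (Sum.map id Sum.inl v.1 : X ⊕ (Y ⊕ Z)) =
      Sum.map id Sum.inr w.1 ↔ (Sum.map id Sum.inl v.1 : X ⊕ (Y ⊕ Z)) = .inl (σ w.1) := by
    rintro ⟨x | y, hv⟩ ⟨x' | z, hw⟩
    · exact Iff.rfl
    · refine iff_of_false (by simp) ?_
      intro h
      have h3 : x = σ (.inr z) := Sum.inl_injective h
      rw [hσ z hw] at h3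
      exact hrF ⟨z, hw⟩ (h3 ▸ Or.inl hv)
    · exact iff_of_false (by simp) (by simp)
    · exact iff_of_false (by simp) (by simp)
  have k2 : ∀ (v w : tv s), (Sum.map id Sum.inr v.1 : X ⊕ (Y ⊕ Z)) =
      Sum.map id Sum.inr w.1 ↔ (Sum.inl (σ v.1) : X ⊕ (Y ⊕ Z)) = .inl (σ w.1) := by
    rintro ⟨x | z, hv⟩ ⟨x' | z', hw⟩
    · exact Iff.rfl
    · refine iff_of_false (by simp) ?_
      intro h
      have h3 : x = σ (.inr z') := Sum.inl_injective h
      rw [hσ z' hw] at h3
      exact hrF ⟨z', hw⟩ (h3 ▸ Or.inr hv)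
    · refine iff_of_false (by simp) ?_
      intro h
      have h3 : σ (.inr z) = x' := Sum.inl_injective h
      rw [hσ z hv] at h3
      exact hrF ⟨z, hv⟩ (h3 ▸ Or.inr hw)
    · constructor
      · intro h
        have h3 : z = z' := by simpa using h
        subst h3
        rfl
      · intro h
        have h3 : σ (.inr z) = σ (.inr z') := Sum.inl_injective h
        rw [hσ z hv, hσ z' hw] at h3
        have h4 : z = z' := congrArg Subtype.val (hr h3)
        subst h4
        rfl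
  have h3 : TE L (e ∘ p) (e ∘ q) := by
    refine he.pat he p q ?_
    rintro (v | v) (w | w)
    · exact Iff.rfl
    · exact k1 v w
    · exact eq_comm.trans ((k1 w v).trans eq_comm)
    · exact k2 v w
  obtain ⟨t', ht'⟩ := lift_tv t (S := tv t) subset_rfl
  obtain ⟨s', hs'⟩ := lift_tv s (S := tv s) subset_rfl
  have h4 := (h3.eq_iff (t'.subst fun v => Term.var (.inl v))
    (s'.subst fun v => Term.var (.inr v))).1 (by
      simp only [Term.realize_subst, Term.realize_var]
      rw [← ht', ← hs'] at hs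
      simp only [Term.realize_subst, Term.realize_var] at hs
      exact hs.symm)
  simp only [Term.realize_subst, Term.realize_var] at h4
  have h5 : t.realize (fun v : X ⊕ Y => e (Sum.map id Sum.inl v)) =
      s.realize fun v : X ⊕ Z => e (.inl (σ v)) := by
    conv_lhs => rw [← ht']
    conv_rhs => rw [← hs']
    simp only [Term.realize_subst, Term.realize_var]
    exact h4
  show t.realize (fun v : X ⊕ Y => e (Sum.map id Sum.inl v)) ∈ _
  rw [h5]
  exact Gn_sub (v := fun x : X => e (.inl x)) (w := fun v : X ⊕ Z => e (.inl (σ v)))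
    (fun v => mem_Gn (v := fun x : X => e (.inl x)) (σ v)) ⟨s, rfl⟩

/-- embeddings into free structures -/
theorem exists_emb_free {Ψ : Tp L} {J : V → A} {e : W → C} (hJ : Sy Ψ J)
    (hG : Gn L J = Set.univ) (he : Sy Ψ e) (ι : V ↪ W) :
    ∃ F : A ↪[L] C, (∀ v, F (J v) = e (ι v)) ∧ Set.range F = Gn L fun v => e (ι v) := by
  have h1 : TE L J (gv L (e ∘ ι)) :=
    (hJ.te he (Function.Embedding.refl _) ι).trans (gv_TE _).symm
  obtain ⟨i, hi⟩ := exists_iso h1 hG (Gn_gv _)
  refine ⟨(GS L (e ∘ ι)).subtype.comp i.toEmbedding, fun v => ?_, ?_⟩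
  · have h2 := congrFun hi v
    show (i (J v)).1 = e (ι v)
    rw [show i (J v) = gv L (e ∘ ι) v from h2]
    rfl
  · ext c
    constructor
    · rintro ⟨a, rfl⟩
      exact (i a).2
    · intro hc
      refine ⟨i.symm ⟨c, hc⟩, ?_⟩
      show (i (i.symm ⟨c, hc⟩)).1 = c
      rw [i.apply_symm_apply]

/-- maps that agree on a generating family agree -/
theorem eq_of_gen {J : V → A} (hG : Gn L J = Set.univ) {F F' : A ↪[L] B}
    (h : ∀ v, F (J v) = F' (J v)) : ∀ a, F a = F' a := by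
  intro a
  have h1 : a ∈ Gn L J := hG ▸ Set.mem_univ a
  obtain ⟨t, rfl⟩ := h1
  have h2 : F (t.realize J) = t.realize (F ∘ J) :=
    (HomClass.realize_term F (t := t) (v := J)).symm
  have h3 : F' (t.realize J) = t.realize (F' ∘ J) :=
    (HomClass.realize_term F' (t := t) (v := J)).symm
  rw [h2, h3]
  congr 1
  exact funext h

/-- codes of the orbits -/
theorem exists_orbit_code {Ψ : Tp L} {J : X ⊕ Z → A} (hJ : Sy Ψ J) (hG : Gn L J = Set.univ) :
    ∃ c : A → Σ k : ℕ, L.Term (X ⊕ Fin k), ∀ a b, c a = c b →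
      ∃ g : A ≃[L] A, (∀ x, g (J (.inl x)) = J (.inl x)) ∧ g a = b := by
  classical
  have h1 : ∀ a : A, ∃ (k : ℕ) (z : Fin k ↪ Z) (t : L.Term (X ⊕ Fin k)),
      t.realize (Sum.elim (fun x => J (.inl x)) fun j => J (.inr (z j))) = a := by
    intro a
    have h2 : a ∈ Gn L J := hG ▸ Set.mem_univ a
    obtain ⟨t, rfl⟩ := h2
    obtain ⟨k, h, t', h3, h4, -⟩ := exists_code (T := Unit) (fun x : X => (.inl x : X ⊕ Z))
      fun _ => t
    have h5 : ∀ j, ∃ z : Z, h j = .inr z := by
      intro j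
      rcases hj : h j with x | z
      · exact absurd hj.symm (h3 x j)
      · exact ⟨z, rfl⟩
    choose z hz using h5
    have hzi : Function.Injective z := fun i j hij => h.injective (by rw [hz, hz, hij])
    refine ⟨k, ⟨z, hzi⟩, t' (), ?_⟩
    have h6 := congrArg (fun s : L.Term (X ⊕ Z) => s.realize J) (h4 ())
    simp only [Term.realize_subst] at h6
    refine Eq.trans ?_ h6
    congr 1
    funext v
    rcases v with v | v
    · rfl
    · show J (.inr (z v)) = J (h v)
      rw [hz]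
  choose k z t ht using h1
  refine ⟨fun a => ⟨k a, t a⟩, fun a b hab => ?_⟩
  have key : ∀ (m n : ℕ) (s : L.Term (X ⊕ Fin m)) (s' : L.Term (X ⊕ Fin n)) (y : Fin m ↪ Z)
      (y' : Fin n ↪ Z), (⟨m, s⟩ : Σ k : ℕ, L.Term (X ⊕ Fin k)) = ⟨n, s'⟩ →
      ∃ g : A ≃[L] A, (∀ x, g (J (.inl x)) = J (.inl x)) ∧
        g (s.realize (Sum.elim (fun x => J (.inl x)) fun j => J (.inr (y j)))) =
        s'.realize (Sum.elim (fun x => J (.inl x)) fun j => J (.inr (y' j))) := by
    intro m n s s' y y' h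
    cases h
    have := Equiv.Perm.isMultiplyPretransitive Z m
    obtain ⟨π, hπ⟩ := MulAction.exists_smul_eq (Equiv.Perm Z) y y'
    have hπ' : ∀ j, π (y j) = y' j := fun j => by
      rw [← hπ]
      rfl
    obtain ⟨g, hg⟩ := hJ.iso hG hJ hG (Equiv.sumCongr (Equiv.refl X) π)
    refine ⟨g, fun x => hg (.inl x), ?_⟩
    have h2 : g (s.realize (Sum.elim (fun x => J (.inl x)) fun j => J (.inr (y j)))) =
        s.realize (g ∘ Sum.elim (fun x => J (.inl x)) fun j => J (.inr (y j))) :=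
      (HomClass.realize_term g (t := s)).symm
    rw [h2]
    congr 1
    funext v
    rcases v with v | v
    · exact hg (.inl v)
    · refine (hg (.inr (y v))).trans ?_
      show J (.inr (π (y v))) = _
      rw [hπ']
      rfl
  obtain ⟨g, hg1, hg2⟩ := key _ _ _ _ (z a) (z b) hab
  rw [ht, ht] at hg2
  exact ⟨g, hg1, hg2⟩

theorem mk_codes (U : UC L) (hX : U.lam ≤ #X) : #(Σ k : ℕ, L.Term (X ⊕ Fin k)) ≤ #X := by
  have h0 : ℵ₀ ≤ #X := U.hl.trans hX
  rw [Cardinal.mk_sigma]
  refine (Cardinal.sum_le_sum _ (fun _ : ℕ => #X) fun k => ?_).trans ?_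
  · refine Term.card_le.trans (max_le h0 ?_)
    rw [Cardinal.mk_sum, Cardinal.lift_id, Cardinal.lift_id, Cardinal.mk_sum, Cardinal.lift_id,
      Cardinal.lift_id]
    refine Cardinal.add_le_of_le h0 (Cardinal.add_le_of_le h0 le_rfl ?_) (U.hL.trans hX)
    exact (Cardinal.lt_aleph0_of_finite _).le.trans h0
  · rw [Cardinal.sum_const', Cardinal.mk_nat]
    exact (mul_le_mul' h0 le_rfl).trans (Cardinal.mul_eq_self h0).le

end

end Pool.Agent.H665.UE
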