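import Pool.Agent.H665.UE.Rel

set_option autoImplicit false

/-!
# Amalgamation and relative categoricity above a categoricity cardinal
-/

namespace Pool.Agent.H665.UE

open FirstOrder FirstOrder.Language Cardinal Ordinal
open Pool.Agent.K7.H47 Pool.Agent.H665.UA
open Pool.Agent.H288R4.LS (AEC bethFrom self_lt_hanf lt_hanf LSat_LS)

variable {L : FirstOrder.Language.{0, 0}} {K : AEC L} {Λ : Type}

/-- embeddings of canonical structures are strong -/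
theorem strong_of_LX {lam : Cardinal.{0}} (hl : K.LSat lam) (hΛ : #Λ = lam) (hI : AInt K)
    {A B : Type} [L.Structure A] [(LX L Λ).Structure A] [L.Structure B]
    [(LX L Λ).Structure B] (hA : Can K Λ A) (hB : Can K Λ B) [Nonempty A]
    (F : A ↪[LX L Λ] B) : ∃ f : A ↪[L] B, K.emb f ∧ ∀ a, f a = F a := by
  let f : A ↪[L] B :=
    { toEmbedding := F.toEmbedding
      map_fun' := fun {n} φ a => by
        have h1 := F.map_fun (of (Λ := Λ) φ) a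
        exact (congrArg F (hA.cmp.fn φ a)).symm.trans (h1.trans (hB.cmp.fn φ (F ∘ a)))
      map_rel' := fun {n} R a => (hB.cmp.rl R (F ∘ a)).symm.trans
        ((F.map_rel (orl (Λ := Λ) R) a).trans (hA.cmp.rl R a)) }
  have hS : K.emb f.toHom.range.subtype := by
    refine strong_of_cf (Λ := Λ) hl hΛ hI hB.mem ?_ ?_
    · obtain ⟨a⟩ := ‹Nonempty A›
      exact ⟨f a, a, rfl⟩
    · intro n hn i b hb
      choose c hc using hb
      refine ⟨Structure.funMap (nf (L := L) hn i) c, ?_⟩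
      have h1 := F.map_fun (nf (L := L) hn i) c
      have h2 : F ∘ c = b := funext hc
      rw [h2] at h1
      exact h1.trans (hB.can hn i b)
  have h1 := K.emb_comp _ _ hS (K.emb_equiv f.equivRange hA.mem)
  have h2 : f.toHom.range.subtype.comp f.equivRange.toEmbedding = f := by
    ext x
    rfl
  rw [h2] at h1
  exact ⟨f, h1, fun _ => rfl⟩

/-- the good template and the generating families -/
theorem exists_tp (hI : AInt K) (hU : Rig K) (hbig : ∀ χ : Cardinal.{0}, χ < K.H1 →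
      ∃ (M : Type) (_ : L.Structure M), K.mem M ∧ χ ≤ #M) {μ : Cardinal.{0}} (hμ : K.lsNum < μ)
    (hcat : K.Categorical μ) :
    ∃ Ψ : Tp (LX L K.lsNum.out), (uc hI hU μ hμ hcat).Gd Ψ ∧
      (∀ (A : Type) [(LX L K.lsNum.out).Structure A], (uc hI hU μ hμ hcat).K A → μ ≤ #A →
        ∃ (X : Type) (J : X → A), Sy Ψ J ∧ Gn (LX L K.lsNum.out) J = Set.univ) ∧
      ∀ (A : Type) [(LX L K.lsNum.out).Structure A], (uc hI hU μ hμ hcat).K A →
        ∀ (X : Type) (J : X → A), Sy Ψ J → μ ≤ #X → ∃ (Z : Type) (J' : X ⊕ Z → A), Sy Ψ J' ∧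
          Gn (LX L K.lsNum.out) J' = Set.univ ∧ ∀ x, J' (.inl x) = J x := by
  classical
  have hls := LSat_LS K
  have h0 := hls.1
  have hΛ : #K.lsNum.out = K.lsNum := Cardinal.mk_out _
  let Λ := K.lsNum.out
  let U := uc hI hU μ hμ hcat
  obtain ⟨Ψ, hΨ, hNV⟩ := exists_mainv (U := U)
    (h := hc_T (lam := K.lsNum) h0)
    (by
      refine ⟨ℕ, fun n => ⟨n, fun p => ∃ (N : Type) (_ : L.Structure N), K.mem N ∧
        ∃ b : Fin n → N, let _ := ex K Λ N; ∀ f : Fa (LX L Λ) (Fin n), p f ↔ f.H b⟩, ?_, ?_, ?_⟩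
      · rw [Cardinal.mk_nat]
        exact h0
      · intro k
        trivial
      · intro A _
        exact Iff.rfl)
    (by
      refine le_trans ?_ hls.2.1
      show #(Σ n, L.Relations n) ≤ #((Σ l, L.Functions l) ⊕ Σ l, L.Relations l)
      exact Cardinal.mk_le_of_injective Sum.inr_injective)
    (fun α hα => by
      obtain ⟨M, _, hM, hMc⟩ := hbig _ (bethFrom_lt_hanf h0 hα)
      exact ⟨M, ex K Λ M, ex_mem hM Λ, hMc⟩)
  refine ⟨Ψ, hΨ, fun A _ hA hAc => ?_, fun A _ hA X J hJ hX => ?_⟩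
  · exact exists_gen_up (U := U) hΨ (Cardinal.mk_out _) hNV hA hAc
  · refine exists_gen_over hJ hX fun Y J hJ hY hG => ?_
    obtain ⟨a, ha⟩ := (Set.ne_univ_iff_exists_notMem _).1 hG
    obtain ⟨z, -, hz⟩ := nv_up (U := U) hΨ (Cardinal.mk_out _) hNV hY A J (fun _ => a) hA hJ ha
    exact ⟨z, hz⟩

section

variable {hI : AInt K} {hU : Rig K} {μ : Cardinal.{0}} {hμ : K.lsNum < μ}
  {hcat : K.Categorical μ} {Ψ : Tp (LX L K.lsNum.out)}

/-- generating families over a base -/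
theorem over_base (hover : ∀ (A : Type) [(LX L K.lsNum.out).Structure A],
      (uc hI hU μ hμ hcat).K A → ∀ (X : Type) (J : X → A), Sy Ψ J → μ ≤ #X →
        ∃ (Z : Type) (J' : X ⊕ Z → A), Sy Ψ J' ∧ Gn (LX L K.lsNum.out) J' = Set.univ ∧
          ∀ x, J' (.inl x) = J x)
    {M N : Type} [L.Structure M] [L.Structure N] {f : M ↪[L] N} (hf : K.emb f) (hM : μ ≤ #M)
    {X : Type} {J₀ : X → M} (hJ : let _ := ex K K.lsNum.out M; Sy Ψ J₀)
    (hG : let _ := ex K K.lsNum.out M; Gn (LX L K.lsNum.out) J₀ = Set.univ) :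
    let _ := ex K K.lsNum.out M
    let _ := ex K K.lsNum.out N
    ∃ g : M ↪[LX L K.lsNum.out] N, ⇑g = f ∧ ∃ (Z : Type) (J : X ⊕ Z → N), Sy Ψ J ∧
      Gn (LX L K.lsNum.out) J = Set.univ ∧ ∀ x, J (.inl x) = g (J₀ x) := by
  have hMm := (K.emb_mem _ hf).1
  have hNm := (K.emb_mem _ hf).2
  let Λ := K.lsNum.out
  let U := uc hI hU μ hμ hcat
  let _ := ex K Λ M
  let _ := ex K Λ N
  obtain ⟨g, hg⟩ := can_emb (Λ := Λ) hI hU (ex_can hMm) (ex_can hNm) hf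
  have hJ' : Sy Ψ J₀ := hJ
  have hX : #X = #M := hJ'.card (U := U) hG (hμ.trans_le hM)
  obtain ⟨Z, J, h1, h2, h3⟩ := hover N (ex_mem hNm Λ) X (g ∘ J₀) (hJ'.congr (TE.emb g J₀))
    (hX ▸ hM)
  exact ⟨g, hg, Z, J, h1, h2, h3⟩

/-- disjoint amalgamation -/
theorem amalg (hΨ : (uc hI hU μ hμ hcat).Gd Ψ)
    (hgen : ∀ (A : Type) [(LX L K.lsNum.out).Structure A], (uc hI hU μ hμ hcat).K A → μ ≤ #A →
      ∃ (X : Type) (J : X → A), Sy Ψ J ∧ Gn (LX L K.lsNum.out) J = Set.univ)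
    (hover : ∀ (A : Type) [(LX L K.lsNum.out).Structure A],
      (uc hI hU μ hμ hcat).K A → ∀ (X : Type) (J : X → A), Sy Ψ J → μ ≤ #X →
        ∃ (Z : Type) (J' : X ⊕ Z → A), Sy Ψ J' ∧ Gn (LX L K.lsNum.out) J' = Set.univ ∧
          ∀ x, J' (.inl x) = J x)
    {M₀ M₁ M₂ : Type} [L.Structure M₀] [L.Structure M₁] [L.Structure M₂] {f₁ : M₀ ↪[L] M₁}
    {f₂ : M₀ ↪[L] M₂} (h1 : K.emb f₁) (h2 : K.emb f₂) (hM : μ ≤ #M₀) :
    ∃ (N : Type) (_ : L.Structure N) (g₁ : M₁ ↪[L] N) (g₂ : M₂ ↪[L] N), K.emb g₁ ∧ K.emb g₂ ∧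
      (∀ x, g₁ (f₁ x) = g₂ (f₂ x)) ∧ (∀ y z, g₁ y = g₂ z → ∃ x, y = f₁ x ∧ z = f₂ x) ∧
      #N = max #M₁ #M₂ := by
  classical
  have hls := LSat_LS K
  have h0 : ℵ₀ ≤ μ := hls.1.trans hμ.le
  have hΛ : #K.lsNum.out = K.lsNum := Cardinal.mk_out _
  have hM₀ := (K.emb_mem _ h1).1
  have hM₁ := (K.emb_mem _ h1).2
  have hM₂ := (K.emb_mem _ h2).2
  let Λ := K.lsNum.out
  let U := uc hI hU μ hμ hcat
  let _ := ex K Λ M₀
  let _ := ex K Λ M₁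
  let _ := ex K Λ M₂
  obtain ⟨X, J₀, hJ₀, hG₀⟩ := hgen M₀ (ex_mem hM₀ Λ) hM
  obtain ⟨g₁, hg₁, Z₁, J₁, a1, a2, a3⟩ := over_base hover h1 hM hJ₀ hG₀
  obtain ⟨g₂, hg₂, Z₂, J₂, b1, b2, b3⟩ := over_base hover h2 hM hJ₀ hG₀
  have hX : #X = #M₀ := hJ₀.card (U := U) hG₀ (hμ.trans_le hM)
  have c1 : μ ≤ #M₁ := hM.trans (Cardinal.mk_le_of_injective f₁.injective)
  have c2 : μ ≤ #M₂ := hM.trans (Cardinal.mk_le_of_injective f₂.injective)
  have hX1 : #(X ⊕ Z₁) = #M₁ := a1.card (U := U) a2 (hμ.trans_le c1)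
  have hX2 : #(X ⊕ Z₂) = #M₂ := b1.card (U := U) b2 (hμ.trans_le c2)
  have : Infinite X := Cardinal.infinite_iff.2 (hX ▸ h0.trans hM)
  have : Nonempty M₁ := Cardinal.mk_ne_zero_iff.1 ((Cardinal.aleph0_pos.trans_le (h0.trans c1)).ne')
  have : Nonempty M₂ := Cardinal.mk_ne_zero_iff.1 ((Cardinal.aleph0_pos.trans_le (h0.trans c2)).ne')
  obtain ⟨G, _, hG, e, he, he'⟩ := hΨ.free (X ⊕ (Z₁ ⊕ Z₂))
  let _ := red L Λ G
  have : Nonempty G := ⟨e (.inl (Classical.arbitrary X))⟩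
  have cG : Cmp L Λ G := ⟨fun _ _ => rfl, fun _ _ => Iff.rfl⟩
  have hcan := KK.can hls hΛ hI hU cG hG
  obtain ⟨F₁, hF₁, hR₁⟩ := exists_emb_free a1 a2 he
    (⟨Sum.map id Sum.inl, Function.Injective.sumMap Function.injective_id Sum.inl_injective⟩ :
      X ⊕ Z₁ ↪ X ⊕ (Z₁ ⊕ Z₂))
  obtain ⟨F₂, hF₂, hR₂⟩ := exists_emb_free b1 b2 he
    (⟨Sum.map id Sum.inr, Function.Injective.sumMap Function.injective_id Sum.inr_injective⟩ :
      X ⊕ Z₂ ↪ X ⊕ (Z₁ ⊕ Z₂))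
  obtain ⟨k₁, hk₁, hk₁'⟩ := strong_of_LX hls hΛ hI (ex_can hM₁) hcan F₁
  obtain ⟨k₂, hk₂, hk₂'⟩ := strong_of_LX hls hΛ hI (ex_can hM₂) hcan F₂
  have e1 : ∀ x, F₁ (g₁ (J₀ x)) = e (.inl x) := fun x => by
    rw [← a3 x, hF₁]
    rfl
  have e2 : ∀ x, F₂ (g₂ (J₀ x)) = e (.inl x) := fun x => by
    rw [← b3 x, hF₂]
    rfl
  have hagree : ∀ m, F₁ (g₁ m) = F₂ (g₂ m) :=
    eq_of_gen hG₀ (F := F₁.comp g₁) (F' := F₂.comp g₂) fun x => (e1 x).trans (e2 x).symm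
  refine ⟨G, inferInstance, k₁, k₂, hk₁, hk₂, fun x => ?_, fun y z hyz => ?_, ?_⟩
  · rw [hk₁', hk₂', ← hg₁, ← hg₂]
    exact hagree x
  · rw [hk₁', hk₂'] at hyz
    have m1 : F₁ y ∈ Gn (LX L Λ) fun v : X ⊕ Z₁ => e (Sum.map id Sum.inl v) :=
      hR₁ ▸ ⟨y, rfl⟩
    have m2 : F₁ y ∈ Gn (LX L Λ) fun v : X ⊕ Z₂ => e (Sum.map id Sum.inr v) := by
      rw [hyz]
      exact hR₂ ▸ ⟨z, rfl⟩
    have m3 := free_disjoint he m1 m2
    have m4 : (fun x => e (.inl x)) = (F₁.comp g₁) ∘ J₀ := funext fun x => (e1 x).symm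
    rw [m4, Gn_emb, hG₀, Set.image_univ] at m3
    obtain ⟨m, hm⟩ := m3
    have hm' : F₁ (g₁ m) = F₁ y := hm
    refine ⟨m, ?_, ?_⟩
    · rw [← hg₁]
      exact (F₁.injective hm').symm
    · rw [← hg₂]
      refine F₂.injective ?_
      rw [← hyz, ← hm']
      exact hagree m
  · have hGc : #(X ⊕ (Z₁ ⊕ Z₂)) = #G := he.card (U := U) he' (by
      refine lt_of_lt_of_le hμ (c1.trans (Cardinal.mk_le_of_injective F₁.injective)))
    have i0 : ℵ₀ ≤ max #M₁ #M₂ := h0.trans (c1.trans (le_max_left _ _))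
    refine le_antisymm ?_ (max_le (Cardinal.mk_le_of_injective F₁.injective)
      (Cardinal.mk_le_of_injective F₂.injective))
    rw [← hGc, Cardinal.mk_sum, Cardinal.lift_id, Cardinal.lift_id, Cardinal.mk_sum,
      Cardinal.lift_id, Cardinal.lift_id]
    refine Cardinal.add_le_of_le i0 ?_ (Cardinal.add_le_of_le i0 ?_ ?_)
    · exact (Cardinal.mk_le_of_injective (Sum.inl_injective (β := Z₁))).trans
        (hX1.le.trans (le_max_left _ _))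
    · exact (Cardinal.mk_le_of_injective (Sum.inr_injective (α := X))).trans
        (hX1.le.trans (le_max_left _ _))
    · exact (Cardinal.mk_le_of_injective (Sum.inr_injective (α := X))).trans
        (hX2.le.trans (le_max_right _ _))

/-- relative categoricity -/
theorem relcat
    (hgen : ∀ (A : Type) [(LX L K.lsNum.out).Structure A], (uc hI hU μ hμ hcat).K A → μ ≤ #A →
      ∃ (X : Type) (J : X → A), Sy Ψ J ∧ Gn (LX L K.lsNum.out) J = Set.univ)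
    (hover : ∀ (A : Type) [(LX L K.lsNum.out).Structure A],
      (uc hI hU μ hμ hcat).K A → ∀ (X : Type) (J : X → A), Sy Ψ J → μ ≤ #X →
        ∃ (Z : Type) (J' : X ⊕ Z → A), Sy Ψ J' ∧ Gn (LX L K.lsNum.out) J' = Set.univ ∧
          ∀ x, J' (.inl x) = J x)
    {M₀ N₁ N₂ : Type} [L.Structure M₀] [L.Structure N₁] [L.Structure N₂] {f₁ : M₀ ↪[L] N₁}
    {f₂ : M₀ ↪[L] N₂} (h1 : K.emb f₁) (h2 : K.emb f₂) (hM : μ ≤ #M₀) (hlt : #M₀ < #N₁)
    (heq : #N₁ = #N₂) : ∃ g : N₁ ≃[L] N₂, ∀ x, g (f₁ x) = f₂ x := by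
  classical
  have hls := LSat_LS K
  have h0 : ℵ₀ ≤ μ := hls.1.trans hμ.le
  have hM₀ := (K.emb_mem _ h1).1
  have hN₁ := (K.emb_mem _ h1).2
  have hN₂ := (K.emb_mem _ h2).2
  let Λ := K.lsNum.out
  let U := uc hI hU μ hμ hcat
  let _ := ex K Λ M₀
  let _ := ex K Λ N₁
  let _ := ex K Λ N₂
  obtain ⟨X, J₀, hJ₀, hG₀⟩ := hgen M₀ (ex_mem hM₀ Λ) hM
  obtain ⟨g₁, hg₁, Z₁, J₁, a1, a2, a3⟩ := over_base hover h1 hM hJ₀ hG₀
  obtain ⟨g₂, hg₂, Z₂, J₂, b1, b2, b3⟩ := over_base hover h2 hM hJ₀ hG₀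
  have hX : #X = #M₀ := hJ₀.card (U := U) hG₀ (hμ.trans_le hM)
  have c1 : μ ≤ #N₁ := hM.trans hlt.le
  have hX1 : #(X ⊕ Z₁) = #N₁ := a1.card (U := U) a2 (hμ.trans_le c1)
  have hX2 : #(X ⊕ Z₂) = #N₂ := b1.card (U := U) b2 (hμ.trans_le (heq ▸ c1))
  rw [Cardinal.mk_sum, Cardinal.lift_id, Cardinal.lift_id] at hX1 hX2
  have hZ1 : #Z₁ = #N₁ := Cardinal.eq_of_add_eq_of_aleph0_le hX1 (hX ▸ hlt) (h0.trans c1)
  have hZ2 : #Z₂ = #N₂ := Cardinal.eq_of_add_eq_of_aleph0_le hX2 (by rw [hX, ← heq]; exact hlt)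
    (heq ▸ h0.trans c1)
  obtain ⟨ζ⟩ := Cardinal.eq.1 (hZ1.trans (heq.trans hZ2.symm))
  obtain ⟨g, hg⟩ := a1.iso a2 b1 b2 (Equiv.sumCongr (Equiv.refl X) ζ)
  have hagree : ∀ m, g (g₁ m) = g₂ m :=
    eq_of_gen hG₀ (F := g.toEmbedding.comp g₁) (F' := g₂) fun x => by
      show g (g₁ (J₀ x)) = g₂ (J₀ x)
      rw [← a3 x, ← b3 x, hg]
      rfl
  refine ⟨eqL (ex_can hN₁).cmp (ex_can hN₂).cmp g, fun x => ?_⟩
  show g (f₁ x) = f₂ x
  rw [← hg₁, ← hg₂]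
  exact hagree x

/-- proper extensions of all sizes -/
theorem exts (hΨ : (uc hI hU μ hμ hcat).Gd Ψ)
    (hgen : ∀ (A : Type) [(LX L K.lsNum.out).Structure A], (uc hI hU μ hμ hcat).K A → μ ≤ #A →
      ∃ (X : Type) (J : X → A), Sy Ψ J ∧ Gn (LX L K.lsNum.out) J = Set.univ)
    {M : Type} [L.Structure M] (hMm : K.mem M) (hM : μ ≤ #M) {ν : Cardinal.{0}} (hν : #M ≤ ν) :
    ∃ (N : Type) (_ : L.Structure N) (f : M ↪[L] N), K.emb f ∧ ¬ Function.Surjective f ∧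
      #N = ν := by
  classical
  have hls := LSat_LS K
  have h0 : ℵ₀ ≤ μ := hls.1.trans hμ.le
  have hΛ : #K.lsNum.out = K.lsNum := Cardinal.mk_out _
  let Λ := K.lsNum.out
  let U := uc hI hU μ hμ hcat
  let _ := ex K Λ M
  obtain ⟨X, J₀, hJ₀, hG₀⟩ := hgen M (ex_mem hMm Λ) hM
  have hX : #X = #M := hJ₀.card (U := U) hG₀ (hμ.trans_le hM)
  have : Infinite X := Cardinal.infinite_iff.2 (hX ▸ h0.trans hM)
  have : Nonempty M := Cardinal.mk_ne_zero_iff.1 ((Cardinal.aleph0_pos.trans_le (h0.trans hM)).ne')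
  have hνo : #ν.out = ν := Cardinal.mk_out _
  have hν0 : ℵ₀ ≤ ν := h0.trans (hM.trans hν)
  have : Nonempty ν.out := Cardinal.mk_ne_zero_iff.1 (by
    rw [hνo]
    exact (Cardinal.aleph0_pos.trans_le hν0).ne')
  obtain ⟨G, _, hG, e, he, he'⟩ := hΨ.free (X ⊕ ν.out)
  let _ := red L Λ G
  have : Nonempty G := ⟨e (.inl (Classical.arbitrary X))⟩
  have cG : Cmp L Λ G := ⟨fun _ _ => rfl, fun _ _ => Iff.rfl⟩
  have hcan := KK.can hls hΛ hI hU cG hG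
  obtain ⟨F, hF, hR⟩ := exists_emb_free hJ₀ hG₀ he (⟨Sum.inl, Sum.inl_injective⟩ : X ↪ X ⊕ ν.out)
  obtain ⟨k, hk, hk'⟩ := strong_of_LX hls hΛ hI (ex_can hMm) hcan F
  refine ⟨G, inferInstance, k, hk, fun hs => ?_, ?_⟩
  · obtain ⟨z⟩ := ‹Nonempty ν.out›
    obtain ⟨m, hm⟩ := hs (e (.inr z))
    have h1 : e (.inr z) ∈ Gn (LX L Λ) fun x : X => e (.inl x) := by
      have h2 : e (.inr z) ∈ Set.range F := ⟨m, (hk' m).symm.trans hm⟩
      rw [hR] at h2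
      exact h2
    refine he.not_mem (R := Set.range Sum.inl) (z := .inr z) ?_ ?_
    · rintro ⟨x, hx⟩
      cases hx
    · exact Gn_sub (v := fun r : (Set.range Sum.inl : Set (X ⊕ ν.out)) => e r)
        (w := fun x : X => e (.inl x)) (fun x =>
          mem_Gn (v := fun r : (Set.range Sum.inl : Set (X ⊕ ν.out)) => e r) ⟨.inl x, x, rfl⟩) h1
  · have hc : #(X ⊕ ν.out) = ν := by
      rw [Cardinal.mk_sum, Cardinal.lift_id, Cardinal.lift_id, hνo, hX]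
      exact Cardinal.add_eq_right hν0 hν
    have hGc : #(X ⊕ ν.out) = #G := he.card (U := U) he' (by
      refine lt_of_lt_of_le hμ (hM.trans (Cardinal.mk_le_of_injective F.injective)))
    exact hGc.symm.trans hc

/-- few orbits over the base -/
theorem orbs
    (hgen : ∀ (A : Type) [(LX L K.lsNum.out).Structure A], (uc hI hU μ hμ hcat).K A → μ ≤ #A →
      ∃ (X : Type) (J : X → A), Sy Ψ J ∧ Gn (LX L K.lsNum.out) J = Set.univ)
    (hover : ∀ (A : Type) [(LX L K.lsNum.out).Structure A],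
      (uc hI hU μ hμ hcat).K A → ∀ (X : Type) (J : X → A), Sy Ψ J → μ ≤ #X →
        ∃ (Z : Type) (J' : X ⊕ Z → A), Sy Ψ J' ∧ Gn (LX L K.lsNum.out) J' = Set.univ ∧
          ∀ x, J' (.inl x) = J x)
    {M N : Type} [L.Structure M] [L.Structure N] {f : M ↪[L] N} (hf : K.emb f) (hM : μ ≤ #M) :
    ∃ S : Set N, #S ≤ #M ∧ ∀ a : N, ∃ b ∈ S, ∃ g : N ≃[L] N, (∀ x, g (f x) = f x) ∧ g a = b := by
  classical
  have hls := LSat_LS K
  have hMm := (K.emb_mem _ hf).1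
  have hNm := (K.emb_mem _ hf).2
  let Λ := K.lsNum.out
  let U := uc hI hU μ hμ hcat
  let _ := ex K Λ M
  let _ := ex K Λ N
  obtain ⟨X, J₀, hJ₀, hG₀⟩ := hgen M (ex_mem hMm Λ) hM
  obtain ⟨g₁, hg₁, Z, J, a1, a2, a3⟩ := over_base hover hf hM hJ₀ hG₀
  have hX : #X = #M := hJ₀.card (U := U) hG₀ (hμ.trans_le hM)
  obtain ⟨c, hc⟩ := exists_orbit_code a1 a2
  have hr : ∀ o : Set.range c, ∃ b, c b = o.1 := fun o => o.2
  choose r hr using hr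
  refine ⟨Set.range r, ?_, fun a => ?_⟩
  · refine Cardinal.mk_range_le.trans ((Cardinal.mk_subtype_le _).trans ?_)
    rw [← hX]
    exact mk_codes U (hX ▸ hμ.le.trans hM)
  · obtain ⟨g, h1, h2⟩ := hc a (r ⟨c a, a, rfl⟩) (hr ⟨c a, a, rfl⟩).symm
    refine ⟨_, ⟨⟨c a, a, rfl⟩, rfl⟩, eqL (ex_can hNm).cmp (ex_can hNm).cmp g, fun x => ?_, h2⟩
    have hagree : ∀ m, g (g₁ m) = g₁ m :=
      eq_of_gen hG₀ (F := g.toEmbedding.comp g₁) (F' := g₁) fun x => by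
        show g (g₁ (J₀ x)) = g₁ (J₀ x)
        rw [← a3 x, h1]
    show g (f x) = f x
    rw [← hg₁]
    exact hagree x

end

end Pool.Agent.H665.UE
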